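import Mathlib

/-!
# Positivity of the coefficients of `(q;q)_∞ / Ψ(-q^2,q)`

Idea: `Ψ(-q^2,q)` has a simple zero at `q = 1/β`, `β = 1.5362...`, and no other zero of comparable
size.  Multiplying by the polynomial `A` below, `A Ψ = 5 - 8 q + ...` with small remaining
coefficients, turns the recurrence for `b(n)` into one in which `5 b(n) - 8 b(n-1)` is small compared
with `b(n-1)`; strong induction then gives `b(n) ≥ (7/5) b(n-1)` for all `n ≥ 30`, and the finitely
many smaller coefficients are computed.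
-/

open PowerSeries PowerSeries.WithPiTopology Filter Topology

namespace Pool.Agent.Helper55.FalseThetaPos

/-- The false theta function
`Ψ(a,b) = ∑_{n ≥ 0} a^C(n+1,2) b^C(n,2) - ∑_{n ≤ -1} a^C(n+1,2) b^C(n,2)`
as a formal power series in `q` (here `X`), for formal power series `a, b`.
In the second sum the index is `n = -(m+1)` with `m ≥ 0`, for which
`C(n+1,2) = (n+1)n/2 = m(m+1)/2 = C(m+1,2)` and `C(n,2) = n(n-1)/2 = (m+1)(m+2)/2 = C(m+2,2)`.
The infinite sums are taken in the coefficientwise topology on formal power series. -/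
noncomputable def falseTheta (a b : ℤ⟦X⟧) : ℤ⟦X⟧ :=
  (∑' n : ℕ, a ^ ((n + 1).choose 2) * b ^ (n.choose 2)) -
    ∑' m : ℕ, a ^ ((m + 1).choose 2) * b ^ ((m + 2).choose 2)

lemma summable1 (e : ℕ → ℕ) (c : ℕ → ℤ) (he : ∀ n, n ≤ e n) :
    Summable (fun n : ℕ => (C (c n) : ℤ⟦X⟧) * X ^ (e n)) := by
  apply summable_of_tendsto_order_atTop_nhds_top ℤ
  rw [ENat.tendsto_nhds_top_iff_natCast_lt]
  intro n
  rw [eventually_atTop]
  refine ⟨n + 1, fun m hm => ?_⟩
  have h1 : (e m : ℕ∞) ≤ (C (c m) * X ^ (e m) : ℤ⟦X⟧).order := by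
    refine le_trans ?_ (le_order_mul _ _)
    rw [order_X_pow]
    exact le_add_self
  refine lt_of_lt_of_le ?_ h1
  have := he m
  exact_mod_cast (by omega : n < e m)

lemma coeff_tsum (e : ℕ → ℕ) (c : ℕ → ℤ) (he : ∀ n, n ≤ e n) (N : ℕ) :
    coeff N (∑' n : ℕ, (C (c n) : ℤ⟦X⟧) * X ^ (e n)) =
      ∑ n ∈ Finset.range (N + 1), if N = e n then c n else 0 := by
  have h := (summable1 e c he).hasSum
  have h2 := h.map (coeff N) (by exact WithPiTopology.continuous_coeff ℤ N)
  have h3 := h2.tsum_eq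
  rw [← h3]
  rw [tsum_eq_sum (s := Finset.range (N + 1))]
  · refine Finset.sum_congr rfl fun n _ => ?_
    rw [Function.comp_apply, coeff_C_mul, coeff_X_pow]
    simp
  · intro n hn
    have h4 := he n
    have h5 : N ≠ e n := by
      simp at hn
      omega
    rw [Function.comp_apply, coeff_C_mul, coeff_X_pow]
    simp [h5]

/-- exponent of the `n`-th term, `n ≥ 0` -/
def e1 (n : ℕ) : ℕ := n * (3 * n + 1) / 2
/-- exponent of the `-(n+1)`-th term -/
def e2 (n : ℕ) : ℕ := (n + 1) * (3 * n + 2) / 2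
/-- the sign `(-1)^(n(n+1)/2)` -/
def sgn (n : ℕ) : ℤ := if (n * (n + 1) / 2) % 2 = 0 then 1 else -1

lemma two_e1 (n : ℕ) : 2 * e1 n = n * (3 * n + 1) := by
  unfold e1
  apply Nat.mul_div_cancel'
  rcases Nat.even_or_odd' n with ⟨k, rfl | rfl⟩
  · exact ⟨k * (3 * (2 * k) + 1), by ring⟩
  · exact ⟨(2 * k + 1) * (3 * k + 2), by ring⟩

lemma two_e2 (n : ℕ) : 2 * e2 n = (n + 1) * (3 * n + 2) := by
  unfold e2
  apply Nat.mul_div_cancel'
  rcases Nat.even_or_odd' n with ⟨k, rfl | rfl⟩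
  · exact ⟨(2 * k + 1) * (3 * k + 1), by ring⟩
  · exact ⟨(k + 1) * (3 * (2 * k + 1) + 2), by ring⟩

lemma le_e1 (n : ℕ) : n ≤ e1 n := by
  have := two_e1 n
  nlinarith

lemma le_e2 (n : ℕ) : n ≤ e2 n := by
  have := two_e2 n
  nlinarith

lemma e1_inj {m n : ℕ} (h : e1 m = e1 n) : m = n := by
  have h1 := two_e1 m
  have h2 := two_e1 n
  rw [h] at h1
  rw [h1] at h2
  rcases lt_trichotomy m n with h3 | h3 | h3
  · nlinarith
  · exact h3
  · nlinarith

lemma e2_inj {m n : ℕ} (h : e2 m = e2 n) : m = n := by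
  have h1 := two_e2 m
  have h2 := two_e2 n
  rw [h] at h1
  rw [h1] at h2
  rcases lt_trichotomy m n with h3 | h3 | h3
  · nlinarith
  · exact h3
  · nlinarith

lemma abs_sum_ite_le (N : ℕ) (e : ℕ → ℕ) (c : ℕ → ℤ) (he : ∀ m n, e m = e n → m = n)
    (hc : ∀ n, |c n| ≤ 1) (s : Finset ℕ) :
    |∑ n ∈ s, if N = e n then c n else 0| ≤ 1 := by
  by_cases h : ∃ n ∈ s, N = e n
  · obtain ⟨n, hn, hN⟩ := h
    rw [Finset.sum_eq_single_of_mem n hn]
    · simp [hN, hc]
    · intro m _ hmn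
      rw [if_neg]
      intro h
      exact hmn (he _ _ (h.symm.trans hN))
  · push Not at h
    rw [Finset.sum_eq_zero]
    · simp
    · intro n hn
      rw [if_neg (h n hn)]

/-- coefficients of `Ψ(-q^2,q)` -/
def P (N : ℕ) : ℤ := (∑ n ∈ Finset.range (N + 1), if N = e1 n then sgn n else 0) -
  ∑ n ∈ Finset.range (N + 1), if N = e2 n then sgn n else 0

/-- coefficients of `(q;q)_∞` -/
def E (N : ℕ) : ℤ := (∑ n ∈ Finset.range (N + 1), if N = e1 n then (-1) ^ n else 0) -
  ∑ n ∈ Finset.range (N + 1), if N = e2 n then (-1) ^ n else 0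

lemma abs_sgn (n : ℕ) : |sgn n| ≤ 1 := by
  unfold sgn; split_ifs <;> simp

lemma abs_P (N : ℕ) : |P N| ≤ 2 := by
  unfold P
  have h1 := abs_sum_ite_le N e1 sgn (fun _ _ => e1_inj) abs_sgn (Finset.range (N + 1))
  have h2 := abs_sum_ite_le N e2 sgn (fun _ _ => e2_inj) abs_sgn (Finset.range (N + 1))
  refine (abs_sub _ _).trans ?_
  linarith

lemma abs_E (N : ℕ) : |E N| ≤ 2 := by
  unfold E
  have h1 := abs_sum_ite_le N e1 (fun n => (-1) ^ n) (fun _ _ => e1_inj) (by simp)
    (Finset.range (N + 1))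
  have h2 := abs_sum_ite_le N e2 (fun n => (-1) ^ n) (fun _ _ => e2_inj) (by simp)
    (Finset.range (N + 1))
  refine (abs_sub _ _).trans ?_
  linarith

lemma neg_one_pow_sgn (n : ℕ) : (-1 : ℤ) ^ ((n + 1).choose 2) = sgn n := by
  rw [Nat.choose_two_right, sgn, Nat.add_sub_cancel, mul_comm (n + 1) n]
  split_ifs with h
  · exact (Nat.even_iff.mpr h).neg_one_pow
  · exact (Nat.odd_iff.mpr (by omega)).neg_one_pow

lemma choose_two (n : ℕ) : 2 * (n + 1).choose 2 = n * (n + 1) := by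
  have := Finset.sum_range_id_mul_two (n + 1)
  rw [Nat.choose_two_right, Nat.add_sub_cancel, Nat.mul_div_cancel']
  · ring
  · rw [mul_comm]; exact (Nat.even_mul_succ_self n).two_dvd

lemma choose_two' (n : ℕ) : 2 * n.choose 2 + n = n * n := by
  rcases n with _ | n
  · simp
  · rw [choose_two]; ring

lemma coeff_falseTheta (N : ℕ) : coeff N (falseTheta (-X ^ 2) X) = P N := by
  unfold falseTheta P
  have h1 : (fun n : ℕ => (-X ^ 2 : ℤ⟦X⟧) ^ ((n + 1).choose 2) * X ^ (n.choose 2)) =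
      fun n => (C (sgn n) : ℤ⟦X⟧) * X ^ (e1 n) := by
    funext n
    rw [neg_pow, ← pow_mul, mul_assoc, ← pow_add, ← neg_one_pow_sgn]
    congr 2
    · simp
    · have h2 := two_e1 n
      have h3 := choose_two n
      have h4 := choose_two' n
      nlinarith
  have h2 : (fun n : ℕ => (-X ^ 2 : ℤ⟦X⟧) ^ ((n + 1).choose 2) * X ^ ((n + 2).choose 2)) =
      fun n => (C (sgn n) : ℤ⟦X⟧) * X ^ (e2 n) := by
    funext n
    rw [neg_pow, ← pow_mul, mul_assoc, ← pow_add, ← neg_one_pow_sgn]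
    congr 2
    · simp
    · have h2 := two_e2 n
      have h3 := choose_two n
      have h4 := choose_two (n + 1)
      nlinarith
  rw [map_sub, h1, h2, coeff_tsum _ _ le_e1, coeff_tsum _ _ le_e2]

lemma coeff_euler (N : ℕ) : coeff N (∏' k : ℕ, (1 - X ^ (k + 1) : ℤ⟦X⟧)) = E N := by
  rw [tprod_one_sub_X_pow, pentagonalSeries_eq_tsum_pow_pentagonal_sub]
  have h1 : (fun k : ℕ => (-1 : ℤ⟦X⟧) ^ k * (X ^ pentagonal (-k) - X ^ pentagonal (k + 1))) =
      fun k => (C ((-1 : ℤ) ^ k) : ℤ⟦X⟧) * X ^ (e1 k) - (C ((-1 : ℤ) ^ k) : ℤ⟦X⟧) * X ^ (e2 k) := by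
    funext k
    have h2 : pentagonal (-k) = e1 k := by
      have h3 := two_mul_natCast_pentagonal_neg k
      have h4 := two_e1 k
      zify at h4 ⊢
      linarith
    have h3 : pentagonal (k + 1) = e2 k := by
      have h3 := two_mul_natCast_pentagonal (k + 1)
      have h4 := two_e2 k
      zify at h4 ⊢
      linarith
    rw [h2, h3, mul_sub]
    simp
  rw [h1, Summable.tsum_sub (summable1 _ _ le_e1) (summable1 _ _ le_e2), map_sub,
    coeff_tsum _ _ le_e1, coeff_tsum _ _ le_e2, E]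


/-- multiplier polynomial -/
def A (i : ℕ) : ℤ := ([5, -3, 2, 0, 2, -3, 1, 1, -1, 0, 3, 4, -2, 6] : List ℤ).getD i 0

lemma sum_abs_A (n : ℕ) : ∑ i ∈ Finset.range n, |A i| ≤ 33 := by
  calc ∑ i ∈ Finset.range n, |A i| ≤ ∑ i ∈ Finset.range (14 + n), |A i| := by
        apply Finset.sum_le_sum_of_subset_of_nonneg
        · intro i hi
          simp at hi ⊢
          omega
        · intros; positivity
    _ = ∑ i ∈ Finset.range 14, |A i| := by
        rw [Finset.sum_range_add]
        have : ∀ i ∈ Finset.range n, |A (14 + i)| = 0 := by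
          intro i _
          simp [A]
        rw [Finset.sum_eq_zero this, add_zero]
    _ = 33 := by decide +kernel

/-- coefficients of `A Ψ` -/
def w (j : ℕ) : ℤ := ∑ i ∈ Finset.range (j + 1), A i * P (j - i)
/-- coefficients of `A (q;q)_∞` -/
def v (j : ℕ) : ℤ := ∑ i ∈ Finset.range (j + 1), A i * E (j - i)

lemma abs_w (j : ℕ) : |w j| ≤ 66 := by
  unfold w
  calc |∑ i ∈ Finset.range (j + 1), A i * P (j - i)|
      ≤ ∑ i ∈ Finset.range (j + 1), |A i * P (j - i)| := Finset.abs_sum_le_sum_abs _ _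
    _ ≤ ∑ i ∈ Finset.range (j + 1), |A i| * 2 := by
        apply Finset.sum_le_sum
        intro i _
        rw [abs_mul]
        exact mul_le_mul_of_nonneg_left (abs_P _) (abs_nonneg _)
    _ = (∑ i ∈ Finset.range (j + 1), |A i|) * 2 := by rw [Finset.sum_mul]
    _ ≤ 66 := by linarith [sum_abs_A (j + 1)]

lemma abs_v (j : ℕ) : |v j| ≤ 66 := by
  unfold v
  calc |∑ i ∈ Finset.range (j + 1), A i * E (j - i)|
      ≤ ∑ i ∈ Finset.range (j + 1), |A i * E (j - i)| := Finset.abs_sum_le_sum_abs _ _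
    _ ≤ ∑ i ∈ Finset.range (j + 1), |A i| * 2 := by
        apply Finset.sum_le_sum
        intro i _
        rw [abs_mul]
        exact mul_le_mul_of_nonneg_left (abs_E _) (abs_nonneg _)
    _ = (∑ i ∈ Finset.range (j + 1), |A i|) * 2 := by rw [Finset.sum_mul]
    _ ≤ 66 := by linarith [sum_abs_A (j + 1)]

/-- table of `P` -/
def Pt (i : ℕ) : ℤ := ([1, -1, -1, 0, 0, 1, 0, -1, 0, 0, 0, 0, 1, 0, 0, 1, 0, 0, 0, 0, 0, 0, -1, 0,
  0, 0, 1, 0, 0, 0, 0, 0, 0, 0, 0, -1, 0, 0, 0, 0, -1] : List ℤ).getD i 0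
/-- table of `E` -/
def Et (i : ℕ) : ℤ := ([1, -1, -1, 0, 0, 1, 0, 1, 0, 0, 0, 0, -1, 0, 0, -1, 0, 0, 0, 0, 0, 0, 1, 0,
  0, 0, 1, 0, 0, 0, 0, 0, 0, 0, 0, -1, 0, 0, 0, 0, -1] : List ℤ).getD i 0
/-- table of `w` -/
def wt (i : ℕ) : ℤ := ([5, -8, 0, 1, 0, 0, -1, 0, 0, 0, 1, 0, 0, -1, -3, 3, 3, -6, 3, 5, -10, 1,
  -1, 6, -4, 9, 7, -2, 7, -1, 3, -3, -2, -3, 1, -11, 6, 2, -2, 4, -2] : List ℤ).getD i 0
/-- table of `b` -/
def bt (i : ℕ) : ℤ := ([1, 0, 0, 0, 0, 0, 0, 2, 2, 4, 6, 10, 12, 20, 30, 44, 68, 106, 164, 250, 388,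
  596, 916, 1404, 2160, 3314, 5088, 7818, 12010, 18450] : List ℤ).getD i 0

lemma P_table : ∀ N < 41, P N = Pt N := by decide +kernel
lemma E_table : ∀ N < 41, E N = Et N := by decide +kernel
lemma w_table (j : ℕ) (hj : j < 41) : w j = wt j := by
  have h : w j = ∑ i ∈ Finset.range (j + 1), A i * Pt (j - i) := by
    unfold w
    refine Finset.sum_congr rfl fun i _ => ?_
    rw [P_table (j - i) (by omega)]
  rw [h]
  revert j
  have : ∀ j < 41, ∑ i ∈ Finset.range (j + 1), A i * Pt (j - i) = wt j := by decide +kernel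
  intro j hj _
  exact this j hj

lemma bt_rec : ∀ n < 30, ∑ j ∈ Finset.range (n + 1), Pt j * bt (n - j) = Et n := by decide +kernel

/-- key numerical sum -/
lemma key_sum : ∑ i ∈ Finset.range 39, |(wt (i + 2) : ℚ)| * (5 / 7) ^ (i + 1) ≤ 926 / 1000 := by
  decide +kernel


lemma tail_sum (M : ℕ) : ∑ i ∈ Finset.range M, |(w (i + 2) : ℚ)| * (5 / 7) ^ (i + 1) ≤
    927 / 1000 := by
  have hw : ∀ j, |(w j : ℚ)| ≤ 66 := fun j => by exact_mod_cast abs_w j
  have key : ∀ k, ∑ i ∈ Finset.range (39 + k), |(w (i + 2) : ℚ)| * (5 / 7) ^ (i + 1) +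
      231 * (5 / 7) ^ (39 + k + 1) ≤ 927 / 1000 := by
    intro k
    induction k with
    | zero =>
      have h : ∑ i ∈ Finset.range 39, |(w (i + 2) : ℚ)| * (5 / 7) ^ (i + 1) =
          ∑ i ∈ Finset.range 39, |(wt (i + 2) : ℚ)| * (5 / 7) ^ (i + 1) := by
        refine Finset.sum_congr rfl fun i hi => ?_
        rw [w_table]
        simp at hi
        omega
      rw [add_zero, h]
      have := key_sum
      norm_num
      norm_num at this
      linarith
    | succ k ih =>
      rw [← add_assoc, Finset.sum_range_succ]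
      have h1 := hw (39 + k + 2)
      have h2 : (0 : ℚ) < (5 / 7) ^ (39 + k + 1) := by positivity
      have h3 : |(w (39 + k + 2) : ℚ)| * (5 / 7) ^ (39 + k + 1) ≤ 66 * (5 / 7) ^ (39 + k + 1) :=
        mul_le_mul_of_nonneg_right h1 h2.le
      have h4 : (5 / 7 : ℚ) ^ (39 + k + 1 + 1) = (5 / 7) ^ (39 + k + 1) * (5 / 7) := pow_succ _ _
      rw [h4]
      linarith
  calc _ ≤ ∑ i ∈ Finset.range (39 + M), |(w (i + 2) : ℚ)| * (5 / 7) ^ (i + 1) := by
        apply Finset.sum_le_sum_of_subset_of_nonneg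
        · intro i hi
          simp at hi ⊢
          omega
        · intros; positivity
    _ ≤ _ := by
        have := key M
        have h2 : (0 : ℚ) < (5 / 7) ^ (39 + M + 1) := by positivity
        linarith

section main
variable (b : ℕ → ℤ)

lemma b_table (hb : ∀ n, ∑ j ∈ Finset.range (n + 1), P j * b (n - j) = E n) :
    ∀ n < 30, b n = bt n := by
  intro n
  induction n using Nat.strong_induction_on with
  | _ n ih =>
    intro hn
    have h1 := hb n
    have h2 := bt_rec n hn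
    rw [Finset.sum_range_succ'] at h1 h2
    have h3 : ∑ k ∈ Finset.range n, P (k + 1) * b (n - (k + 1)) =
        ∑ k ∈ Finset.range n, Pt (k + 1) * bt (n - (k + 1)) := by
      refine Finset.sum_congr rfl fun k hk => ?_
      simp at hk
      rw [P_table _ (by omega), ih _ (by omega) (by omega)]
    rw [h3, E_table n (by omega), ← h2, P_table 0 (by omega)] at h1
    simpa [Pt] using h1

lemma main_step (hw : ∀ n, ∑ j ∈ Finset.range (n + 1), w j * b (n - j) = v n)
    (hb : ∀ n, ∑ j ∈ Finset.range (n + 1), P j * b (n - j) = E n) (k : ℕ) :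
    (∀ m ≤ 29 + k, (b m : ℚ) ≤ (5 / 7) ^ (29 + k - m) * b (29 + k)) ∧
    (∀ m ≤ 29 + k, 0 ≤ (b m : ℚ)) ∧ (1000 : ℚ) ≤ b (29 + k) := by
  induction k with
  | zero =>
    have h1 : ∀ m ≤ 29, (bt m : ℚ) ≤ (5 / 7) ^ (29 - m) * bt 29 := by decide +kernel
    have h2 : ∀ m ≤ 29, 0 ≤ (bt m : ℚ) := by decide +kernel
    have h3 : (1000 : ℚ) ≤ bt 29 := by decide +kernel
    refine ⟨fun m hm => ?_, fun m hm => ?_, ?_⟩
    · rw [b_table b hb m (by omega), b_table b hb (29 + 0) (by omega)]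
      exact h1 m hm
    · rw [b_table b hb m (by omega)]
      exact h2 m hm
    · rw [b_table b hb (29 + 0) (by omega)]
      exact h3
  | succ k ih =>
    obtain ⟨ih1, ih2, ih3⟩ := ih
    set n := 29 + k with hn
    have hn1 : 29 + (k + 1) = n + 1 := by omega
    rw [hn1]
    -- recurrence at n+1
    have h1 : ((∑ j ∈ Finset.range (n + 1 + 1), w j * b (n + 1 - j) : ℤ) : ℚ) = (v (n + 1) : ℤ) := by
      rw [hw (n + 1)]
    rw [Finset.sum_range_succ', Finset.sum_range_succ'] at h1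
    push_cast at h1
    have hv : |(v (n + 1) : ℚ)| ≤ 66 := by exact_mod_cast abs_v (n + 1)
    have hw0 : (w 0 : ℚ) = 5 := by
      rw [w_table 0 (by omega)]; simp [wt]
    have hw1 : (w 1 : ℚ) = -8 := by
      rw [w_table 1 (by omega)]; simp [wt]
    have h2 : |∑ k ∈ Finset.range n, (w (k + 1 + 1) : ℚ) * (b (n + 1 - (k + 1 + 1)) : ℚ)| ≤
        927 / 1000 * b n := by
      calc _ ≤ ∑ k ∈ Finset.range n, |(w (k + 1 + 1) : ℚ) * (b (n + 1 - (k + 1 + 1)) : ℚ)| :=
            Finset.abs_sum_le_sum_abs _ _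
        _ ≤ ∑ k ∈ Finset.range n, |(w (k + 2) : ℚ)| * (5 / 7) ^ (k + 1) * b n := by
            apply Finset.sum_le_sum
            intro i hi
            simp at hi
            rw [abs_mul, mul_assoc]
            apply mul_le_mul_of_nonneg_left _ (abs_nonneg _)
            have e : n + 1 - (i + 1 + 1) = n - (i + 1) := by omega
            rw [e, abs_of_nonneg (ih2 _ (by omega))]
            have := ih1 (n - (i + 1)) (by omega)
            have e2 : n - (n - (i + 1)) = i + 1 := by omega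
            rwa [e2] at this
        _ = (∑ k ∈ Finset.range n, |(w (k + 2) : ℚ)| * (5 / 7) ^ (k + 1)) * b n := by
            rw [Finset.sum_mul]
        _ ≤ _ := by
            apply mul_le_mul_of_nonneg_right (tail_sum n) (by linarith)
    simp only [Nat.add_sub_add_right] at h2
    rw [hw0, hw1] at h1
    have h3 := abs_le.mp h2
    have h4 := abs_le.mp hv
    have h5 : (7 / 5 : ℚ) * b n ≤ b (n + 1) := by linarith
    refine ⟨fun m hm => ?_, fun m hm => ?_, ?_⟩
    · rcases Nat.lt_or_ge n m with h | h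
      · have : m = n + 1 := by omega
        subst this
        simp
      · have e : n + 1 - m = (n - m) + 1 := by omega
        rw [e, pow_succ]
        have h6 := ih1 m h
        have h7 : (0 : ℚ) < (5 / 7) ^ (n - m) := by positivity
        have h8 : (5 / 7 : ℚ) ^ (n - m) * b n ≤ (5 / 7 : ℚ) ^ (n - m) * ((5 / 7) * b (n + 1)) := by
          apply mul_le_mul_of_nonneg_left _ h7.le
          linarith
        linarith
    · rcases Nat.lt_or_ge n m with h | h
      · have : m = n + 1 := by omega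
        subst this
        linarith
      · exact ih2 m h
    · linarith

end main

/-- There is exactly one integer power series `b` with `b * Ψ(-q^2,q) = (q;q)_∞`, that is
`b = (q;q)_∞ / Ψ(-q^2,q)`, and its coefficients `b(n)` are positive for all `n ≥ 7`. -/
theorem main :
    (∃! b : ℤ⟦X⟧, b * falseTheta (-X ^ 2) X = ∏' k : ℕ, (1 - X ^ (k + 1))) ∧
    ∀ b : ℤ⟦X⟧, b * falseTheta (-X ^ 2) X = ∏' k : ℕ, (1 - X ^ (k + 1)) →
      ∀ n : ℕ, 7 ≤ n → 0 < coeff n b := by
  constructor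
  · have hu : constantCoeff (falseTheta (-X ^ 2) X) = ((1 : ℤˣ) : ℤ) := by
      rw [← coeff_zero_eq_constantCoeff_apply, coeff_falseTheta]
      decide +kernel
    have h1 := mul_invOfUnit (falseTheta (-X ^ 2) X) 1 hu
    refine ⟨(∏' k : ℕ, (1 - X ^ (k + 1))) * invOfUnit (falseTheta (-X ^ 2) X) 1, ?_, ?_⟩
    · beta_reduce
      rw [mul_assoc, mul_comm (invOfUnit _ _), h1, mul_one]
    · intro y hy
      rw [← hy, mul_assoc, h1, mul_one]
  · intro b hb
    have hP : ∀ n, ∑ j ∈ Finset.range (n + 1), P j * coeff (n - j) b = E n := by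
      intro n
      rw [← coeff_euler, ← hb, mul_comm, coeff_mul, Finset.Nat.sum_antidiagonal_eq_sum_range_succ
        (fun i j => coeff i (falseTheta (-X ^ 2) X) * coeff j b)]
      simp only [coeff_falseTheta]
    have hw : ∀ n, ∑ j ∈ Finset.range (n + 1), w j * coeff (n - j) b = v n := by
      intro n
      have h1 : ∀ j, coeff j (mk A * falseTheta (-X ^ 2) X) = w j := by
        intro j
        rw [coeff_mul, Finset.Nat.sum_antidiagonal_eq_sum_range_succ
          (fun i k => coeff i (mk A) * coeff k (falseTheta (-X ^ 2) X))]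
        simp only [coeff_falseTheta, coeff_mk, w]
      have h2 : ∀ j, coeff j (mk A * ∏' k : ℕ, (1 - X ^ (k + 1) : ℤ⟦X⟧)) = v j := by
        intro j
        rw [coeff_mul, Finset.Nat.sum_antidiagonal_eq_sum_range_succ
          (fun i k => coeff i (mk A) * coeff k (∏' k : ℕ, (1 - X ^ (k + 1) : ℤ⟦X⟧)))]
        simp only [coeff_euler, coeff_mk, v]
      rw [← h2, ← hb]
      have h3 : mk A * (b * falseTheta (-X ^ 2) X) = (mk A * falseTheta (-X ^ 2) X) * b := by ring
      rw [h3, coeff_mul, Finset.Nat.sum_antidiagonal_eq_sum_range_succ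
          (fun i k => coeff i (mk A * falseTheta (-X ^ 2) X) * coeff k b)]
      simp only [h1]
    intro n hn
    rcases Nat.lt_or_ge n 30 with h | h
    · rw [b_table (fun n => coeff n b) hP n h]
      have : ∀ n < 30, 7 ≤ n → 0 < bt n := by decide +kernel
      exact this n h hn
    · have h1 := (main_step (fun n => coeff n b) hw hP (n - 29)).2.2
      have e : 29 + (n - 29) = n := by omega
      rw [e] at h1
      have h2 : (0 : ℚ) < (coeff n b : ℤ) := by linarith
      exact_mod_cast h2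

end Pool.Agent.Helper55.FalseThetaPos
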