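import Mathlib

/-!
Definitions for MP_b83ca4_nt.  The plane `ℝ²` is identified with `ℂ`, so that the rotation
`r_θ` is multiplication by `exp (θ i)`.
-/

namespace Pool.Agent.Helper55.ForestDefs

/-- The triangular (honeycomb) lattice `Λ = span_ℤ((1,0), (1/2, √3/2))` in `ℝ² = ℂ`. -/
def Lam : Set ℂ := {z | ∃ m n : ℤ, z = m + n * (⟨1 / 2, √3 / 2⟩ : ℂ)}

/-- `TBG(k, (x_i), (θ_i)) = ⋃_i (r_{θ_i}(Λ) + x_i)`. -/
def TBG (k : ℕ) (x : Fin k → ℂ) (θ : Fin k → ℝ) : Set ℂ :=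
  ⋃ i, {z | ∃ l ∈ Lam, z = Complex.exp (θ i * Complex.I) * l + x i}

/-- `D` is a dense forest: for every `ε > 0` there is `V > 0` such that every segment of length
`V` has a point of `D` at distance less than `ε` from it. -/
def IsDenseForest (D : Set ℂ) : Prop :=
  ∀ ε : ℝ, 0 < ε → ∃ V : ℝ, 0 < V ∧ ∀ p q : ℂ, dist p q = V →
    ∃ d ∈ D, Metric.infDist d (segment ℝ p q) < ε

/-- `D` is uniformly discrete: distinct points of `D` have distance at least some `r > 0`. -/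
def IsUniformlyDiscrete (D : Set ℂ) : Prop :=
  ∃ r : ℝ, 0 < r ∧ ∀ p ∈ D, ∀ q ∈ D, p ≠ q → r ≤ dist p q

end Pool.Agent.Helper55.ForestDefs
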