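import Mathlib
import Pool.Agent.Helper55.ForestDefs

/-!
Dense forests made of rotated and translated copies of the triangular lattice.
-/

open Complex
open Pool.Agent.Helper55.ForestDefs

namespace Pool.Agent.Helper55.Forest

/-- `ω = 1/2 + (√3/2) i` -/
noncomputable def om : ℂ := ⟨1 / 2, √3 / 2⟩

lemma sqrt3_sq : √3 * √3 = (3 : ℝ) := Real.mul_self_sqrt (by norm_num)

lemma om_re : om.re = 1 / 2 := rfl
lemma om_im : om.im = √3 / 2 := rfl

lemma om_sq : om * om = om - 1 := by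
  have := sqrt3_sq
  apply Complex.ext
  · simp only [mul_re, om_re, om_im, sub_re, one_re]
    nlinarith
  · simp only [mul_im, om_re, om_im, sub_im, one_im]
    ring

lemma om_conj : (starRingEnd ℂ) om = 1 - om := by
  apply Complex.ext
  · simp only [conj_re, om_re, sub_re, one_re]; norm_num
  · simp only [conj_im, om_im, sub_im, one_im]; ring

lemma norm_om : ‖om‖ = 1 := by
  have h : normSq om = 1 := by
    rw [normSq_apply, om_re, om_im]
    have := sqrt3_sq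
    nlinarith
  rw [norm_def, h, Real.sqrt_one]

lemma mem_iff {z : ℂ} : z ∈ Lam ↔ ∃ m n : ℤ, z = m + n * om := Iff.rfl

lemma one_mem : (1 : ℂ) ∈ Lam := ⟨1, 0, by simp⟩
lemma zero_mem : (0 : ℂ) ∈ Lam := ⟨0, 0, by simp⟩
lemma int_mem (n : ℤ) : (n : ℂ) ∈ Lam := ⟨n, 0, by simp⟩
lemma nat_mem (n : ℕ) : (n : ℂ) ∈ Lam := ⟨n, 0, by simp⟩

lemma add_mem {a b : ℂ} (ha : a ∈ Lam) (hb : b ∈ Lam) : a + b ∈ Lam := by
  obtain ⟨m, n, rfl⟩ := mem_iff.mp ha
  obtain ⟨m', n', rfl⟩ := mem_iff.mp hb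
  exact mem_iff.mpr ⟨m + m', n + n', by push_cast; ring⟩

lemma neg_mem {a : ℂ} (ha : a ∈ Lam) : -a ∈ Lam := by
  obtain ⟨m, n, rfl⟩ := mem_iff.mp ha
  exact mem_iff.mpr ⟨-m, -n, by push_cast; ring⟩

lemma sub_mem {a b : ℂ} (ha : a ∈ Lam) (hb : b ∈ Lam) : a - b ∈ Lam := by
  rw [sub_eq_add_neg]; exact add_mem ha (neg_mem hb)

lemma mul_mem {a b : ℂ} (ha : a ∈ Lam) (hb : b ∈ Lam) : a * b ∈ Lam := by
  obtain ⟨m, n, rfl⟩ := mem_iff.mp ha
  obtain ⟨m', n', rfl⟩ := mem_iff.mp hb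
  refine mem_iff.mpr ⟨m * m' - n * n', m * n' + n * m' + n * n', ?_⟩
  push_cast
  linear_combination (n * n' : ℂ) * om_sq

lemma conj_mem {a : ℂ} (ha : a ∈ Lam) : (starRingEnd ℂ) a ∈ Lam := by
  obtain ⟨m, n, rfl⟩ := mem_iff.mp ha
  refine mem_iff.mpr ⟨m + n, -n, ?_⟩
  simp only [map_add, map_mul, om_conj, map_intCast]
  push_cast
  ring

/-- imaginary parts -/
lemma im_mem {a : ℂ} (ha : a ∈ Lam) : ∃ n : ℤ, a.im = n * (√3 / 2) := by
  obtain ⟨m, n, rfl⟩ := mem_iff.mp ha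
  refine ⟨n, ?_⟩
  simp [om_im]

/-- covering -/
lemma cover (z : ℂ) : ∃ l ∈ Lam, ‖z - l‖ ≤ 1 := by
  have h3 : (0 : ℝ) < √3 := by positivity
  obtain ⟨t, ht⟩ : ∃ t : ℝ, t * (√3 / 2) = z.im := ⟨z.im / (√3 / 2), by field_simp⟩
  obtain ⟨s, hs⟩ : ∃ s : ℝ, s + t * (1 / 2) = z.re := ⟨z.re - t * (1 / 2), by ring⟩
  have hz : z = s + t * om := by
    apply Complex.ext
    · simp only [add_re, mul_re, ofReal_re, ofReal_im, om_re, zero_mul, sub_zero]
      exact hs.symm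
    · simp only [add_im, mul_im, ofReal_re, ofReal_im, om_im, zero_mul, zero_add, add_zero]
      exact ht.symm
  refine ⟨(round s : ℤ) + (round t : ℤ) * om, ⟨_, _, rfl⟩, ?_⟩
  have h1 : z - ((round s : ℤ) + (round t : ℤ) * om) =
      ((s - round s : ℝ) : ℂ) + ((t - round t : ℝ) : ℂ) * om := by
    rw [hz]; push_cast; ring
  rw [h1]
  refine (norm_add_le _ _).trans ?_
  rw [norm_mul, norm_om, mul_one, norm_real, norm_real, Real.norm_eq_abs, Real.norm_eq_abs]
  have h4 := abs_sub_round s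
  have h5 := abs_sub_round t
  linarith

/-- Pigeonhole: small nonzero elements of `Λ u + Λ`. -/
lemma small_elt {u : ℂ} (hu : ∀ a ∈ Lam, a ≠ 0 → a * u ∉ Lam) {ε : ℝ} (hε : 0 < ε) :
    ∃ a ∈ Lam, ∃ b ∈ Lam, a * u - b ≠ 0 ∧ ‖a * u - b‖ < ε := by
  choose l hl hl1 using fun n : ℕ => cover ((n : ℂ) * u)
  have hc : IsCompact (Metric.closedBall (0 : ℂ) 1) := isCompact_closedBall 0 1
  obtain ⟨a, _, φ, hφ, hlim⟩ := hc.tendsto_subseq (x := fun n : ℕ => (n : ℂ) * u - l n)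
    (fun n => by simpa using hl1 n)
  have hcau := hlim.cauchySeq
  rw [Metric.cauchySeq_iff] at hcau
  obtain ⟨N, hN⟩ := hcau ε hε
  have h1 := hN (N + 1) (by omega) N (by omega)
  have h2 : φ N < φ (N + 1) := hφ (by omega)
  refine ⟨((φ (N + 1) : ℕ) : ℂ) - (φ N : ℕ), sub_mem (nat_mem _) (nat_mem _),
    l (φ (N + 1)) - l (φ N), sub_mem (hl _) (hl _), ?_, ?_⟩
  · intro h
    have h3 : (((φ (N + 1) : ℕ) : ℂ) - (φ N : ℕ)) ≠ 0 := by
      rw [sub_ne_zero]
      exact_mod_cast h2.ne'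
    apply hu _ (sub_mem (nat_mem _) (nat_mem _)) h3
    rw [sub_eq_zero] at h
    rw [h]
    exact sub_mem (hl _) (hl _)
  · rw [dist_eq_norm] at h1
    have h4 : ((φ (N + 1) : ℕ) - (φ N : ℕ) : ℂ) * u - (l (φ (N + 1)) - l (φ N)) =
        (((φ (N + 1) : ℕ) : ℂ) * u - l (φ (N + 1))) - (((φ N : ℕ) : ℂ) * u - l (φ N)) := by ring
    rw [h4]
    exact h1

/-- density of `Λ u + Λ` -/
lemma dense_elt {u : ℂ} (hu : ∀ a ∈ Lam, a ≠ 0 → a * u ∉ Lam) (z : ℂ) {ε : ℝ} (hε : 0 < ε) :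
    ∃ a ∈ Lam, ∃ b ∈ Lam, ‖a * u - b - z‖ < ε := by
  obtain ⟨a, ha, b, hb, h0, h1⟩ := small_elt hu hε
  obtain ⟨c, hc, hc1⟩ := cover (z / (a * u - b))
  refine ⟨c * a, mul_mem hc ha, c * b, mul_mem hc hb, ?_⟩
  have h2 : c * a * u - c * b - z = -((z / (a * u - b) - c) * (a * u - b)) := by
    field_simp
    ring
  rw [h2, norm_neg, norm_mul]
  calc _ ≤ 1 * ‖a * u - b‖ := mul_le_mul_of_nonneg_right hc1 (norm_nonneg _)
    _ < ε := by rw [one_mul]; exact h1

/-- uniformly discrete unions are made of commensurable lattices -/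
lemma comm_of_ud {k : ℕ} {x : Fin k → ℂ} {θ : Fin k → ℝ} (h : IsUniformlyDiscrete (TBG k x θ))
    (i j : Fin k) : ∃ a ∈ Lam, a ≠ 0 ∧ a * exp ((θ j - θ i) * I) ∈ Lam := by
  by_contra hcon
  push Not at hcon
  obtain ⟨r, hr, hD⟩ := h
  have e1 : exp ((θ j - θ i) * I) = exp (θ j * I) * exp (-(θ i * I)) := by
    rw [← exp_add]; ring_nf
  have e2 : exp (θ i * I) * exp (-(θ i * I)) = 1 := by
    rw [← exp_add]; simp
  obtain ⟨a, ha, b, hb, hab⟩ := dense_elt hcon
    (exp (-(θ i * I)) * (x i - x j + (r / 2 : ℝ))) (ε := r / 4) (by positivity)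
  set p := exp (θ j * I) * a + x j with hp
  set q := exp (θ i * I) * b + x i with hq
  have hpq : p - q - (r / 2 : ℝ) = exp (θ i * I) *
      (a * exp ((θ j - θ i) * I) - b - exp (-(θ i * I)) * (x i - x j + (r / 2 : ℝ))) := by
    rw [hp, hq, e1]
    linear_combination (x i - x j + (r / 2 : ℝ) - a * exp (θ j * I)) * e2
  have hn : ‖exp (θ i * I)‖ = 1 := norm_exp_ofReal_mul_I _
  have h1 : ‖p - q - (r / 2 : ℝ)‖ < r / 4 := by
    rw [hpq, norm_mul, hn, one_mul]; exact hab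
  have h2 : ‖((r / 2 : ℝ) : ℂ)‖ = r / 2 := by
    rw [norm_real, Real.norm_eq_abs, abs_of_pos (by positivity)]
  have h3 : ‖p - q‖ < r := by
    calc ‖p - q‖ = ‖(p - q - (r / 2 : ℝ)) + (r / 2 : ℝ)‖ := by congr 1; ring
      _ ≤ ‖p - q - (r / 2 : ℝ)‖ + ‖((r / 2 : ℝ) : ℂ)‖ := norm_add_le _ _
      _ < r := by rw [h2]; linarith
  have h4 : p ≠ q := by
    intro h
    rw [h, sub_self, zero_sub, norm_neg, h2] at h1
    linarith
  have h5 := hD p (Set.mem_iUnion.mpr ⟨j, a, ha, rfl⟩) q (Set.mem_iUnion.mpr ⟨i, b, hb, rfl⟩) h4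
  rw [dist_eq_norm] at h5
  linarith

/-- commensurable lattices do not form a dense forest -/
lemma not_forest {k : ℕ} {x : Fin k → ℂ} {θ : Fin k → ℝ} (i0 : Fin k)
    (h : ∀ j, ∃ a ∈ Lam, a ≠ 0 ∧ a * exp ((θ j - θ i0) * I) ∈ Lam) :
    ¬ IsDenseForest (TBG k x θ) := by
  choose a ha ha0 hau using h
  -- the functional
  set e : ℂ := exp (-(θ i0 * I)) with he
  have hne : ‖e‖ = 1 := by
    rw [he, ← neg_mul, ← ofReal_neg]; exact norm_exp_ofReal_mul_I _
  let f : ℂ → ℝ := fun z => (z * e).im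
  -- values of f on the pieces
  have hf : ∀ j, ∀ l ∈ Lam, ∃ n : ℤ,
      f (exp (θ j * I) * l + x j) = (√3 / 2 / normSq (a j)) * n + f (x j) := by
    intro j l hl
    obtain ⟨n, hn⟩ := im_mem (mul_mem (mul_mem (hau j) (conj_mem (ha j))) hl)
    refine ⟨n, ?_⟩
    have h1 : exp ((θ j - θ i0) * I) = exp (θ j * I) * e := by
      rw [he, ← exp_add]; ring_nf
    have h2 : (normSq (a j) : ℂ) = a j * (starRingEnd ℂ) (a j) := (mul_conj _).symm
    have h3 : (normSq (a j)) ≠ 0 := by simpa using ha0 j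
    have h4 : a j * exp ((θ j - θ i0) * I) * (starRingEnd ℂ) (a j) * l =
        (normSq (a j) : ℂ) * (exp (θ j * I) * l * e) := by
      rw [h1, h2]; ring
    rw [h4, im_ofReal_mul] at hn
    have h5 : f (exp (θ j * I) * l + x j) = (exp (θ j * I) * l * e).im + f (x j) := by
      simp only [f, add_mul, add_im]
    rw [h5]
    congr 1
    field_simp
    linarith
  let Pj : Fin k → Set ℝ := fun j => Set.range fun n : ℤ => (√3 / 2 / normSq (a j)) * n + f (x j)
  have hclosed : ∀ j, IsClosed (Pj j) := by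
    intro j
    have h3 : (normSq (a j)) ≠ 0 := by simpa using ha0 j
    have h6 : (√3 / 2 / normSq (a j)) ≠ 0 := by positivity
    have h7 : Pj j = (fun y : ℝ => (√3 / 2 / normSq (a j)) * y + f (x j)) ''
        (Set.range ((↑) : ℤ → ℝ)) := by
      ext y; simp [Pj]
    rw [h7]
    have h8 := (Homeomorph.mulLeft₀ _ h6).trans (Homeomorph.addRight (f (x j)))
    exact ((Homeomorph.mulLeft₀ _ h6).trans (Homeomorph.addRight (f (x j)))).isClosedMap _
      Int.isClosedEmbedding_coe_real.isClosed_range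
  have hU : IsClosed (⋃ j, Pj j) := isClosed_iUnion_of_finite hclosed
  have hcount : (⋃ j, Pj j).Countable := Set.countable_iUnion fun j => Set.countable_range _
  obtain ⟨s, hs⟩ : ∃ s, s ∉ ⋃ j, Pj j := by
    by_contra hcon
    push Not at hcon
    exact Cardinal.not_countable_real (hcount.mono fun y _ => hcon y)
  obtain ⟨ε, hε, hball⟩ := Metric.isOpen_iff.mp hU.isOpen_compl s hs
  intro hDF
  obtain ⟨V, hV, hseg⟩ := hDF ε hε
  have hee : exp (θ i0 * I) * e = 1 := by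
    rw [he, ← exp_add]; simp
  have hni : ‖exp (θ i0 * I)‖ = 1 := norm_exp_ofReal_mul_I _
  obtain ⟨d, hd, hd2⟩ := hseg (exp (θ i0 * I) * (s * I)) (exp (θ i0 * I) * (V + s * I)) (by
    rw [dist_eq_norm, ← mul_sub, norm_mul, hni, one_mul]
    have : (s * I - (V + s * I) : ℂ) = ((-V : ℝ) : ℂ) := by push_cast; ring
    rw [this, norm_real, Real.norm_eq_abs, abs_neg, abs_of_pos hV])
  rw [Metric.infDist_lt_iff ⟨_, left_mem_segment ℝ _ _⟩] at hd2
  obtain ⟨y, hy, hdy⟩ := hd2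
  -- f y = s
  have hfy : f y = s := by
    obtain ⟨α, β, _, _, hαβ, rfl⟩ := hy
    simp only [f]
    have h1 : (α • (exp (θ i0 * I) * (s * I)) + β • (exp (θ i0 * I) * (V + s * I))) * e =
        ((β * V : ℝ) : ℂ) + (((α + β) * s : ℝ) : ℂ) * I := by
      simp only [real_smul]
      push_cast
      linear_combination (α * (s * I) + β * (V + s * I) : ℂ) * hee
    rw [h1, hαβ]
    simp
  obtain ⟨j, l, hl, rfl⟩ := Set.mem_iUnion.mp hd
  obtain ⟨n, hn⟩ := hf j l hl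
  have h9 : |f (exp (θ j * I) * l + x j) - s| < ε := by
    rw [← hfy]
    calc |f (exp (θ j * I) * l + x j) - f y|
        = |((exp (θ j * I) * l + x j - y) * e).im| := by simp only [f, sub_mul, sub_im]
      _ ≤ ‖(exp (θ j * I) * l + x j - y) * e‖ := abs_im_le_norm _
      _ = dist (exp (θ j * I) * l + x j) y := by rw [norm_mul, hne, mul_one, dist_eq_norm]
      _ < ε := hdy
  have h10 := hball (show f (exp (θ j * I) * l + x j) ∈ Metric.ball s ε by
    rw [Metric.mem_ball, Real.dist_eq]; exact h9)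
  exact h10 (Set.mem_iUnion.mpr ⟨j, n, hn.symm⟩)

/-- Q2 -/
theorem not_ud_and_forest (k : ℕ) (x : Fin k → ℂ) (θ : Fin k → ℝ) :
    ¬ (IsUniformlyDiscrete (TBG k x θ) ∧ IsDenseForest (TBG k x θ)) := by
  rintro ⟨h1, h2⟩
  rcases k with _ | k
  · obtain ⟨V, hV, h3⟩ := h2 1 one_pos
    obtain ⟨d, hd, _⟩ := h3 0 (V : ℂ) (by simp [abs_of_pos hV])
    obtain ⟨i, _⟩ := Set.mem_iUnion.mp hd
    exact i.elim0
  · exact not_forest 0 (fun j => comm_of_ud h1 0 j) h2


/-- if no nonzero lattice vector is killed by `a ↦ Im (a v)` then its values are dense -/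
lemma dense_im {v : ℂ} (hv : ∀ a ∈ Lam, a ≠ 0 → (a * v).im ≠ 0) (s : ℝ) {ε : ℝ} (hε : 0 < ε) :
    ∃ a ∈ Lam, |(a * v).im - s| < ε := by
  rcases AddSubgroup.dense_or_cyclic (AddSubgroup.closure {v.im, (om * v).im}) with h | h
  · obtain ⟨y, hy, hy2⟩ := Metric.dense_iff.mp h s ε hε
    obtain ⟨m, n, rfl⟩ := AddSubgroup.mem_closure_pair.mp hy2
    refine ⟨m + n * om, ⟨m, n, rfl⟩, ?_⟩
    rw [Metric.mem_ball, Real.dist_eq] at hy
    convert hy using 2
    have : ((m : ℂ) + n * om) * v = ((m : ℝ) : ℂ) * v + ((n : ℝ) : ℂ) * (om * v) := by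
      push_cast; ring
    rw [this, add_im, im_ofReal_mul, im_ofReal_mul, zsmul_eq_mul, zsmul_eq_mul]
  · exfalso
    obtain ⟨c, hc⟩ := h
    have h1 : v.im ∈ AddSubgroup.closure {v.im, (om * v).im} :=
      AddSubgroup.subset_closure (by simp)
    have h2 : (om * v).im ∈ AddSubgroup.closure {v.im, (om * v).im} :=
      AddSubgroup.subset_closure (by simp)
    rw [hc, AddSubgroup.mem_closure_singleton] at h1 h2
    obtain ⟨m, hm⟩ := h1
    obtain ⟨n, hn⟩ := h2
    have h3 : ((((n : ℂ) - m * om)) * v).im = 0 := by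
      have : ((n : ℂ) - m * om) * v = ((n : ℝ) : ℂ) * v - ((m : ℝ) : ℂ) * (om * v) := by
        push_cast; ring
      rw [this, sub_im, im_ofReal_mul, im_ofReal_mul, ← hm, ← hn]
      simp only [zsmul_eq_mul]
      ring
    have h4 : (n : ℂ) - m * om = 0 := by
      by_contra hne
      exact hv _ (sub_mem (int_mem _) (mul_mem (int_mem _) (mem_iff.mpr ⟨0, 1, by simp⟩))) hne h3
    have h5 : m = 0 := by
      have h6 := congrArg Complex.im h4
      simp only [sub_im, intCast_im, mul_im, intCast_re, om_im, zero_mul, add_zero, zero_im,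
        zero_sub, neg_eq_zero] at h6
      have h7 : (√3 / 2 : ℝ) ≠ 0 := by positivity
      have h8 := (mul_eq_zero.mp h6).resolve_right h7
      exact_mod_cast h8
    apply hv 1 one_mem one_ne_zero
    rw [one_mul, ← hm, h5, zero_smul]

/-- no common rational direction implies dense forest -/
lemma forest_of_no_common {k : ℕ} (x : Fin k → ℂ) (θ : Fin k → ℝ)
    (h : ∀ w : ℂ, ‖w‖ = 1 → ∃ i, ∀ a ∈ Lam, a ≠ 0 →
      (a * (exp (θ i * I) * (starRingEnd ℂ) w)).im ≠ 0) :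
    IsDenseForest (TBG k x θ) := by
  intro ε hε
  let K : Set (ℂ × (Fin k → ℝ)) := (Metric.sphere (0 : ℂ) 1) ×ˢ (Set.univ.pi fun _ => Set.Icc (-1) 1)
  have hK : IsCompact K := (isCompact_sphere 0 1).prod (isCompact_univ_pi fun _ => isCompact_Icc)
  let U : ℕ → Set (ℂ × (Fin k → ℝ)) := fun R => {y | ∃ i, ∃ l ∈ Lam, ‖l‖ < R ∧
    |(l * (exp (θ i * I) * (starRingEnd ℂ) y.1)).im - y.2 i| < ε}
  have hU : ∀ R, IsOpen (U R) := by
    intro R
    have h1 : U R = ⋃ i, ⋃ l ∈ {l | l ∈ Lam ∧ ‖l‖ < R}, {y : ℂ × (Fin k → ℝ) |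
        |(l * (exp (θ i * I) * (starRingEnd ℂ) y.1)).im - y.2 i| < ε} := by
      ext y
      simp only [U, Set.mem_ofPred_eq, Set.mem_iUnion, exists_prop, and_assoc]
    rw [h1]
    refine isOpen_iUnion fun i => isOpen_biUnion fun l _ => ?_
    refine isOpen_lt ?_ continuous_const
    fun_prop
  have hcov : K ⊆ ⋃ R, U R := by
    rintro ⟨w, s⟩ ⟨hw, hs⟩
    simp only [mem_sphere_iff_norm, sub_zero] at hw
    obtain ⟨i, hi⟩ := h w hw
    obtain ⟨a, ha, ha2⟩ := dense_im hi (s i) hε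
    obtain ⟨R, hR⟩ := exists_nat_gt ‖a‖
    exact Set.mem_iUnion.mpr ⟨R, i, a, ha, hR, ha2⟩
  have hdir : Directed (· ⊆ ·) U := by
    apply Monotone.directed_le
    intro R R' hRR' y hy
    obtain ⟨i, l, hl, hl2, hl3⟩ := hy
    exact ⟨i, l, hl, lt_of_lt_of_le hl2 (by exact_mod_cast hRR'), hl3⟩
  obtain ⟨R, hR⟩ := hK.elim_directed_cover U hU hcov hdir
  refine ⟨2 * (R + 1), by positivity, fun p q hpq => ?_⟩
  have hV : (0 : ℝ) < 2 * (R + 1) := by positivity
  set V : ℝ := 2 * (R + 1) with hVdef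
  have hVc : (V : ℂ) ≠ 0 := by exact_mod_cast hV.ne'
  set w : ℂ := (q - p) / V with hw
  set c : ℂ := (p + q) / 2 with hc
  have hwn : ‖w‖ = 1 := by
    rw [hw, norm_div, norm_real, Real.norm_eq_abs, abs_of_pos hV, ← dist_eq_norm, dist_comm, hpq,
      div_self hV.ne']
  have hwc : w * (starRingEnd ℂ) w = 1 := by
    rw [mul_conj, normSq_eq_norm_sq, hwn]; simp
  -- nearest points
  have hnear : ∀ i, ∃ l ∈ Lam, ‖c - (exp (θ i * I) * l + x i)‖ ≤ 1 := by
    intro i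
    obtain ⟨l, hl, hl2⟩ := cover (exp (-(θ i * I)) * (c - x i))
    refine ⟨l, hl, ?_⟩
    have e2 : exp (θ i * I) * exp (-(θ i * I)) = 1 := by
      rw [← exp_add]; simp
    have h2 : c - (exp (θ i * I) * l + x i) =
        exp (θ i * I) * (exp (-(θ i * I)) * (c - x i) - l) := by
      linear_combination -(c - x i) * e2
    rw [h2, norm_mul, norm_exp_ofReal_mul_I, one_mul]
    exact hl2
  choose l0 hl0 hl01 using hnear
  have hmem : (w, fun i => ((c - (exp (θ i * I) * l0 i + x i)) * (starRingEnd ℂ) w).im) ∈ K := by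
    refine ⟨by simpa using hwn, fun i _ => ?_⟩
    have h3 : |((c - (exp (θ i * I) * l0 i + x i)) * (starRingEnd ℂ) w).im| ≤ 1 := by
      refine (abs_im_le_norm _).trans ?_
      rw [norm_mul, norm_conj, hwn, mul_one]
      exact hl01 i
    exact abs_le.mp h3
  obtain ⟨i, l, hl, hl2, hl3⟩ := hR hmem
  simp only at hl3
  set d : ℂ := exp (θ i * I) * (l + l0 i) + x i with hd
  have hdc : d - c = exp (θ i * I) * l - (c - (exp (θ i * I) * l0 i + x i)) := by
    rw [hd]; ring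
  have him : |((d - c) * (starRingEnd ℂ) w).im| < ε := by
    have h4 : (d - c) * (starRingEnd ℂ) w = l * (exp (θ i * I) * (starRingEnd ℂ) w) -
        (c - (exp (θ i * I) * l0 i + x i)) * (starRingEnd ℂ) w := by
      rw [hdc]; ring
    rw [h4, sub_im]
    exact hl3
  have hdn : ‖d - c‖ ≤ R + 1 := by
    rw [hdc]
    refine (norm_sub_le _ _).trans ?_
    rw [norm_mul, norm_exp_ofReal_mul_I, one_mul]
    have := hl01 i
    linarith
  set τ : ℝ := ((d - c) * (starRingEnd ℂ) w).re with hτ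
  have hτ1 : |τ| ≤ R + 1 := by
    refine (abs_re_le_norm _).trans ?_
    rw [norm_mul, norm_conj, hwn, mul_one]
    exact hdn
  refine ⟨d, Set.mem_iUnion.mpr ⟨i, l + l0 i, add_mem hl (hl0 i), rfl⟩, ?_⟩
  have hy : c + τ * w ∈ segment ℝ p q := by
    have h5 := abs_le.mp hτ1
    refine ⟨1 / 2 - τ / V, 1 / 2 + τ / V, ?_, ?_, by ring, ?_⟩
    · rw [sub_nonneg, div_le_iff₀ hV]; linarith
    · have : -(1 / 2) ≤ τ / V := by rw [le_div_iff₀ hV]; linarith
      linarith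
    · simp only [real_smul]
      rw [hw, hc]
      push_cast
      field_simp
      ring
  rw [Metric.infDist_lt_iff ⟨_, left_mem_segment ℝ _ _⟩]
  refine ⟨_, hy, ?_⟩
  rw [dist_eq_norm]
  have h6 : d - (c + τ * w) = w * ((((d - c) * (starRingEnd ℂ) w).im : ℝ) * I) := by
    have h7 := re_add_im ((d - c) * (starRingEnd ℂ) w)
    rw [← hτ] at h7
    linear_combination -(d - c) * hwc - w * h7
  rw [h6, norm_mul, hwn, one_mul, norm_mul, norm_I, mul_one, norm_real, Real.norm_eq_abs]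
  exact him

/-- rotation by `π/4` shares no direction with the lattice -/
lemma pi_div_four {c : ℂ} (hc : c ∈ Lam) (h : (exp ((Real.pi / 4 : ℝ) * I) * c).im = 0) :
    c = 0 := by
  obtain ⟨m, n, rfl⟩ := mem_iff.mp hc
  rw [exp_mul_I, ← ofReal_cos, ← ofReal_sin, Real.cos_pi_div_four, Real.sin_pi_div_four] at h
  have h1 : (((√2 / 2 : ℝ) : ℂ) + ((√2 / 2 : ℝ) : ℂ) * I) * (m + n * om) =
      ((√2 / 2 : ℝ) : ℂ) * ((1 + I) * (m + n * om)) := by ring
  rw [h1, im_ofReal_mul] at h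
  have h2 : (√2 / 2 : ℝ) ≠ 0 := by positivity
  have h3 := (mul_eq_zero.mp h).resolve_left h2
  have h4 : ((1 + I) * ((m : ℂ) + n * om)).im = m + n / 2 + n * (√3 / 2) := by
    simp only [mul_im, add_re, add_im, one_re, one_im, I_re, I_im, intCast_re, intCast_im, mul_re,
      om_re, om_im]
    ring
  rw [h4] at h3
  have h5 : n = 0 := by
    by_contra hn
    have hn' : (n : ℝ) ≠ 0 := by exact_mod_cast hn
    have h6 : √3 = ((-(2 * m + n) / n : ℚ) : ℝ) := by
      push_cast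
      field_simp
      linarith
    have h7 : Irrational (√3) := by
      simpa using Nat.Prime.irrational_sqrt (show Nat.Prime 3 by norm_num)
    exact h7 ⟨_, h6.symm⟩
  subst h5
  simp only [Int.cast_zero, zero_div, add_zero, zero_mul] at h3
  have h8 : m = 0 := by exact_mod_cast h3
  subst h8
  simp

/-- existence for `k = 2` -/
theorem two_forest (x : Fin 2 → ℂ) : IsDenseForest (TBG 2 x ![0, Real.pi / 4]) := by
  apply forest_of_no_common
  intro w hw
  by_contra hcon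
  push Not at hcon
  obtain ⟨a, ha, ha0, ha1⟩ := hcon 0
  obtain ⟨b, hb, hb0, hb1⟩ := hcon 1
  simp only [Matrix.cons_val_zero, Matrix.cons_val_one, ofReal_zero, zero_mul, exp_zero,
    one_mul] at ha1 hb1
  have hw0 : w ≠ 0 := by
    intro h; rw [h] at hw; simp at hw
  -- conj (a * conj w) = a * conj w
  have h1 : (starRingEnd ℂ) (a * (starRingEnd ℂ) w) = a * (starRingEnd ℂ) w :=
    conj_eq_iff_im.mpr ha1
  have h2 : (starRingEnd ℂ) a * w = a * (starRingEnd ℂ) w := by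
    simpa using h1
  -- b e conj w real, multiply by (conj a) w, real
  have h3 : (exp ((Real.pi / 4 : ℝ) * I) * (b * (starRingEnd ℂ) a)) * (w * (starRingEnd ℂ) w) =
      (b * (exp ((Real.pi / 4 : ℝ) * I) * (starRingEnd ℂ) w)) * ((starRingEnd ℂ) a * w) := by
    ring
  have hwc : w * (starRingEnd ℂ) w = 1 := by
    rw [mul_conj, normSq_eq_norm_sq, hw]; simp
  have h4 : ((starRingEnd ℂ) a * w).im = 0 := by rw [h2]; exact ha1
  have h5 : (exp ((Real.pi / 4 : ℝ) * I) * (b * (starRingEnd ℂ) a)).im = 0 := by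
    rw [hwc, mul_one] at h3
    rw [h3, mul_im, h4, hb1]
    ring
  have h6 := pi_div_four (mul_mem hb (conj_mem ha)) h5
  rcases mul_eq_zero.mp h6 with h7 | h7
  · exact hb0 h7
  · exact ha0 (by simpa using h7)

/-- Q1 -/
theorem isLeast_two :
    IsLeast {k : ℕ | 1 ≤ k ∧ ∃ (x : Fin k → ℂ) (θ : Fin k → ℝ), IsDenseForest (TBG k x θ)} 2 := by
  refine ⟨⟨by norm_num, fun _ => 0, ![0, Real.pi / 4], two_forest _⟩, ?_⟩
  rintro k ⟨hk, x, θ, h⟩
  by_contra hlt
  have hk1 : k = 1 := by omega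
  subst hk1
  refine not_forest 0 (fun j => ⟨1, one_mem, one_ne_zero, ?_⟩) h
  have : j = 0 := Subsingleton.elim _ _
  subst this
  simp [one_mem]

end Pool.Agent.Helper55.Forest
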