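import Mathlib

/-!
`I p m` is the additive subgroup `p^m ℤ_(p)` of `ℚ`, with basic lemmas used for proving
supercongruences.
-/

namespace Pool.Agent.Helper55.PVal

variable (p : ℕ) [hp : Fact p.Prime]

/-- `x ∈ I p m` iff `v_p(x) ≥ m`. -/
def I (m : ℤ) : AddSubgroup ℚ where
  carrier := {x | padicNorm p x ≤ (p : ℚ) ^ (-m)}
  zero_mem' := by
    have : (0 : ℚ) < p := by exact_mod_cast hp.out.pos
    simp only [Set.mem_ofPred_eq, padicNorm.zero]
    positivity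
  add_mem' := fun hx hy => (padicNorm.nonarchimedean).trans (max_le hx hy)
  neg_mem' := fun hx => by
    simpa [padicNorm.neg] using hx

variable {p}

lemma mem_I {m : ℤ} {x : ℚ} : x ∈ I p m ↔ padicNorm p x ≤ (p : ℚ) ^ (-m) := Iff.rfl

lemma ppos : (0 : ℚ) < p := by exact_mod_cast hp.out.pos

lemma one_lt_p : (1 : ℚ) < p := by exact_mod_cast hp.out.one_lt

lemma mul_mem {m k : ℤ} {x y : ℚ} (hx : x ∈ I p m) (hy : y ∈ I p k) : x * y ∈ I p (m + k) := by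
  rw [mem_I] at *
  have hp0 := ppos (p := p)
  rw [padicNorm.mul, neg_add, zpow_add₀ hp0.ne']
  exact mul_le_mul hx hy (padicNorm.nonneg _) (by positivity)

lemma mono {m k : ℤ} (h : m ≤ k) {x : ℚ} (hx : x ∈ I p k) : x ∈ I p m := by
  rw [mem_I] at *
  refine hx.trans ?_
  exact zpow_le_zpow_right₀ (one_lt_p (p := p)).le (by omega)

lemma one_mem : (1 : ℚ) ∈ I p 0 := by
  rw [mem_I]; simp

lemma int_mem (z : ℤ) : (z : ℚ) ∈ I p 0 := by
  rw [mem_I]; simpa using padicNorm.of_int z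

lemma nat_mem (z : ℕ) : (z : ℚ) ∈ I p 0 := by
  rw [mem_I]; simpa using padicNorm.of_nat z

lemma mul_mem' {m k l : ℤ} {x y : ℚ} (hx : x ∈ I p m) (hy : y ∈ I p k) (h : l ≤ m + k) :
    x * y ∈ I p l := mono h (mul_mem hx hy)

/-- `I p 0` acts on `I p m`. -/
lemma mul_mem_left {m : ℤ} {x y : ℚ} (hx : x ∈ I p 0) (hy : y ∈ I p m) : x * y ∈ I p m :=
  mul_mem' hx hy (by omega)

lemma mul_mem_right {m : ℤ} {x y : ℚ} (hx : x ∈ I p m) (hy : y ∈ I p 0) : x * y ∈ I p m :=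
  mul_mem' hx hy (by omega)

lemma pow_mem {m : ℤ} {x : ℚ} (hx : x ∈ I p m) (k : ℕ) : x ^ k ∈ I p (k * m) := by
  induction k with
  | zero => simpa using one_mem
  | succ k ih =>
    rw [pow_succ]
    exact mul_mem' ih hx (by push_cast; linarith)

lemma pow_mem_zero {x : ℚ} (hx : x ∈ I p 0) (k : ℕ) : x ^ k ∈ I p 0 := by
  simpa using pow_mem hx k

lemma p_pow_mem (k : ℕ) : ((p : ℚ) ^ k) ∈ I p k := by
  rw [mem_I]
  have h := (padicNorm.dvd_iff_norm_le (p := p) (n := k) (z := (p : ℤ) ^ k)).mp (by simp)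
  simpa using h

lemma p_mem : (p : ℚ) ∈ I p 1 := by
  simpa using p_pow_mem (p := p) 1

lemma int_mem_of_dvd {k : ℕ} {z : ℤ} (h : ((p ^ k : ℕ) : ℤ) ∣ z) : (z : ℚ) ∈ I p k := by
  rw [mem_I]
  exact (padicNorm.dvd_iff_norm_le (p := p) (n := k) (z := z)).mp h

lemma inv_mem {x : ℚ} (h : padicNorm p x = 1) : x⁻¹ ∈ I p 0 := by
  rw [mem_I]
  have : padicNorm p x⁻¹ = 1 := by
    rw [← one_div, padicNorm.div, h]; simp
  simp [this]

lemma norm_nat {a : ℕ} (h : ¬ p ∣ a) : padicNorm p (a : ℚ) = 1 :=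
  (padicNorm.nat_eq_one_iff a).mpr h

lemma norm_int {a : ℤ} (h : ¬ (p : ℤ) ∣ a) : padicNorm p (a : ℚ) = 1 :=
  (padicNorm.int_eq_one_iff a).mpr h

lemma nat_inv_mem {a : ℕ} (h : ¬ p ∣ a) : (a : ℚ)⁻¹ ∈ I p 0 := inv_mem (norm_nat h)

/-- units `1 + x` -/
lemma norm_one_add {x : ℚ} (hx : x ∈ I p 1) : padicNorm p (1 + x) = 1 := by
  rw [mem_I] at hx
  have h1 : padicNorm p x < 1 := by
    refine lt_of_le_of_lt hx ?_
    have := one_lt_p (p := p)
    rw [zpow_neg, zpow_one]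
    exact inv_lt_one_of_one_lt₀ this
  rw [padicNorm.add_eq_max_of_ne]
  · rw [padicNorm.one, max_eq_left h1.le]
  · rw [padicNorm.one]; exact h1.ne'

lemma one_add_ne {x : ℚ} (hx : x ∈ I p 1) : 1 + x ≠ 0 := by
  intro h
  have := norm_one_add hx
  rw [h, padicNorm.zero] at this
  exact one_ne_zero this.symm

lemma one_add_inv_mem {x : ℚ} (hx : x ∈ I p 1) : (1 + x)⁻¹ ∈ I p 0 := inv_mem (norm_one_add hx)

/-- `p^r / j ∈ I (r - s + 1)` when `p^s ∤ j`. -/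
lemma div_mem {r s : ℕ} {j : ℕ} (h : ¬ p ^ s ∣ j) : (p : ℚ) ^ r / j ∈ I p (r - s + 1) := by
  have hj : j ≠ 0 := by rintro rfl; simp at h
  have hv : padicValNat p j < s := by
    by_contra hcon
    push Not at hcon
    exact h ((padicValNat_dvd_iff_le hj).mpr hcon)
  rw [mem_I, padicNorm.div]
  have h1 : padicNorm p (j : ℚ) = (p : ℚ) ^ (-(padicValNat p j : ℤ)) := by
    rw [padicNorm.eq_zpow_of_nonzero (by exact_mod_cast hj)]
    simp
  have h2 : padicNorm p ((p : ℚ) ^ r) ≤ (p : ℚ) ^ (-(r : ℤ)) := p_pow_mem r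
  have hp0 := ppos (p := p)
  rw [h1, div_le_iff₀ (by positivity), ← zpow_add₀ hp0.ne']
  refine h2.trans ?_
  exact zpow_le_zpow_right₀ (one_lt_p (p := p)).le (by omega)

/-- The products of `1 + ε_j`. -/
lemma prod_one_add {f : ℕ → ℚ} {m : ℤ} (hm : 0 ≤ m) (s : ℕ) (hf : ∀ j < s, f j ∈ I p m) :
    (∏ j ∈ Finset.range s, (1 + f j)) - 1 - ∑ j ∈ Finset.range s, f j ∈ I p (2 * m) ∧
    (∏ j ∈ Finset.range s, (1 + f j)) - 1 ∈ I p m := by
  induction s with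
  | zero => simp
  | succ s ih =>
    obtain ⟨h1, h2⟩ := ih (fun j hj => hf j (by omega))
    have h3 := hf s (by omega)
    rw [Finset.prod_range_succ, Finset.sum_range_succ]
    constructor
    · have e : (∏ j ∈ Finset.range s, (1 + f j)) * (1 + f s) - 1 -
        (∑ j ∈ Finset.range s, f j + f s) = ((∏ j ∈ Finset.range s, (1 + f j)) - 1 -
        ∑ j ∈ Finset.range s, f j) + ((∏ j ∈ Finset.range s, (1 + f j)) - 1) * f s := by ring
      rw [e]
      exact AddSubgroup.add_mem _ h1 (mul_mem' h2 h3 (by omega))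
    · have e : (∏ j ∈ Finset.range s, (1 + f j)) * (1 + f s) - 1 =
        ((∏ j ∈ Finset.range s, (1 + f j)) - 1) +
        (((∏ j ∈ Finset.range s, (1 + f j)) - 1) * f s + f s) := by ring
      rw [e]
      exact AddSubgroup.add_mem _ h2 (AddSubgroup.add_mem _ (mul_mem' h2 h3 (by omega)) h3)

/-- powers of `1 + ε`. -/
lemma pow_one_add {x : ℚ} {m : ℤ} (hm : 0 ≤ m) (hx : x - 1 ∈ I p m) (k : ℕ) :
    x ^ k - 1 ∈ I p m := by
  induction k with
  | zero => simp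
  | succ k ih =>
    have e : x ^ (k + 1) - 1 = (x ^ k - 1) + ((x ^ k - 1) * (x - 1) + (x - 1)) := by ring
    rw [e]
    exact AddSubgroup.add_mem _ ih (AddSubgroup.add_mem _ (mul_mem' ih hx (by omega)) hx)

/-- `∑_{k=1}^{p-1} 1/k ≡ 0 (mod p)` for odd `p`. -/
lemma harmonic_mem (hp2 : p ≠ 2) : ∑ k ∈ Finset.range (p - 1), ((k + 1 : ℕ) : ℚ)⁻¹ ∈ I p 1 := by
  have hp1 := hp.out.one_lt
  have h1 : ∑ k ∈ Finset.range (p - 1), ((k + 1 : ℕ) : ℚ)⁻¹ =
      ∑ k ∈ Finset.range (p - 1), ((p - (k + 1) : ℕ) : ℚ)⁻¹ := by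
    rw [← Finset.sum_range_reflect]
    refine Finset.sum_congr rfl fun k hk => ?_
    simp only [Finset.mem_range] at hk
    congr 2
    omega
  have h2 : ∑ k ∈ Finset.range (p - 1), ((k + 1 : ℕ) : ℚ)⁻¹ = 2⁻¹ *
      ∑ k ∈ Finset.range (p - 1), (p : ℚ) * (((k + 1 : ℕ) : ℚ)⁻¹ * ((p - (k + 1) : ℕ) : ℚ)⁻¹) := by
    have h3 : ∑ k ∈ Finset.range (p - 1), (p : ℚ) *
        (((k + 1 : ℕ) : ℚ)⁻¹ * ((p - (k + 1) : ℕ) : ℚ)⁻¹) =
        ∑ k ∈ Finset.range (p - 1), ((k + 1 : ℕ) : ℚ)⁻¹ +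
          ∑ k ∈ Finset.range (p - 1), ((p - (k + 1) : ℕ) : ℚ)⁻¹ := by
      rw [← Finset.sum_add_distrib]
      refine Finset.sum_congr rfl fun k hk => ?_
      simp only [Finset.mem_range] at hk
      have h4 : ((p - (k + 1) : ℕ) : ℚ) = p - (k + 1 : ℕ) := by
        rw [Nat.cast_sub (by omega)]
      have h5 : ((p - (k + 1) : ℕ) : ℚ) ≠ 0 := by
        have : p - (k + 1) ≠ 0 := by omega
        exact_mod_cast this
      have h6 : ((k + 1 : ℕ) : ℚ) ≠ 0 := by positivity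
      have h7 : (p : ℚ) = ((p - (k + 1) : ℕ) : ℚ) + (k + 1 : ℕ) := by rw [h4]; ring
      rw [h7]
      field_simp
    rw [h3, ← h1]
    ring
  rw [h2]
  have h2' : ((2 : ℚ))⁻¹ ∈ I p 0 := by
    have := nat_inv_mem (p := p) (a := 2) (fun h => hp2 (by
      have := (Nat.prime_dvd_prime_iff_eq hp.out Nat.prime_two).mp h
      exact this))
    simpa using this
  refine mul_mem_left h2' (AddSubgroup.sum_mem _ fun k hk => ?_)
  simp only [Finset.mem_range] at hk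
  refine mul_mem_right p_mem (mul_mem_left (nat_inv_mem ?_) (nat_inv_mem ?_))
  · exact Nat.not_dvd_of_pos_of_lt (by omega) (by omega)
  · exact Nat.not_dvd_of_pos_of_lt (by omega) (by omega)

/-- `∑_{k=1}^{p-1} 1/k^2 ≡ 0 (mod p)` for `p > 3`. -/
lemma harmonic2_mem (hp3 : 3 < p) :
    ∑ k ∈ Finset.range (p - 1), (((k + 1 : ℕ) : ℚ) ^ 2)⁻¹ ∈ I p 1 := by
  have h1 : (∑ k ∈ Finset.range (p - 1), ((k + 1 : ℕ) : ℚ) ^ (p - 3)) ∈ I p 1 := by
    have h2 : ((p ^ 1 : ℕ) : ℤ) ∣ ∑ k ∈ Finset.range (p - 1), ((k + 1 : ℕ) : ℤ) ^ (p - 3) := by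
      rw [pow_one, ← ZMod.intCast_zmod_eq_zero_iff_dvd]
      push_cast
      have h3 := FiniteField.sum_pow_lt_card_sub_one (ZMod p) (p - 3) (by
        rw [ZMod.card]; omega)
      rw [← h3]
      have h4 : ∑ x : ZMod p, x ^ (p - 3) = ∑ k ∈ Finset.range p, (k : ZMod p) ^ (p - 3) := by
        obtain ⟨q, rfl⟩ : ∃ q, p = q + 1 := ⟨p - 1, by omega⟩
        rw [Finset.sum_range]
        refine Finset.sum_congr rfl fun x _ => ?_
        congr 1
        exact (ZMod.natCast_zmod_val (n := q + 1) x).symm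
      rw [h4]
      obtain ⟨q, hq⟩ : ∃ q, p = q + 1 := ⟨p - 1, by omega⟩
      have h5 : Finset.range p = Finset.range ((p - 1) + 1) := by congr 1; omega
      rw [h5, Finset.sum_range_succ']
      have h6 : p - 3 ≠ 0 := by omega
      simp [h6]
    have h7 := int_mem_of_dvd h2
    push_cast at h7 ⊢
    exact h7
  have h8 : ∑ k ∈ Finset.range (p - 1), (((k + 1 : ℕ) : ℚ) ^ 2)⁻¹ =
      ∑ k ∈ Finset.range (p - 1), ((k + 1 : ℕ) : ℚ) ^ (p - 3) -
      ∑ k ∈ Finset.range (p - 1), (((k + 1 : ℕ) : ℚ) ^ 2)⁻¹ * ((((k + 1 : ℕ) : ℚ) ^ (p - 1)) - 1) := by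
    rw [← Finset.sum_sub_distrib]
    refine Finset.sum_congr rfl fun k hk => ?_
    have h9 : ((k + 1 : ℕ) : ℚ) ≠ 0 := by positivity
    have h10 : ((k + 1 : ℕ) : ℚ) ^ (p - 1) = ((k + 1 : ℕ) : ℚ) ^ (p - 3) * ((k + 1 : ℕ) : ℚ) ^ 2 := by
      rw [← pow_add]; congr 1; omega
    rw [h10]
    field_simp
    ring
  rw [h8]
  refine AddSubgroup.sub_mem _ h1 (AddSubgroup.sum_mem _ fun k hk => ?_)
  simp only [Finset.mem_range] at hk
  have hnd : ¬ p ∣ k + 1 := Nat.not_dvd_of_pos_of_lt (by omega) (by omega)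
  refine mul_mem_left ?_ ?_
  · rw [← Nat.cast_pow]
    refine nat_inv_mem fun h => hnd (hp.out.dvd_of_dvd_pow h)
  · have h11 : ((p ^ 1 : ℕ) : ℤ) ∣ ((k + 1 : ℕ) : ℤ) ^ (p - 1) - 1 := by
      rw [pow_one, ← ZMod.intCast_zmod_eq_zero_iff_dvd]
      push_cast
      rw [sub_eq_zero]
      apply ZMod.pow_card_sub_one_eq_one
      intro h
      apply hnd
      rw [← ZMod.natCast_eq_zero_iff]
      push_cast
      exact h
    have h12 := int_mem_of_dvd h11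
    push_cast at h12 ⊢
    exact h12

lemma norm_p_pow (m : ℕ) : padicNorm p ((p : ℚ) ^ m) = (padicNorm p p) ^ m := by
  induction m with
  | zero => simp
  | succ m ih => rw [pow_succ, padicNorm.mul, pow_succ, ih]

/-- characterisation by the denominator -/
lemma not_dvd_den {x : ℚ} {m : ℕ} (h : x ∈ I p m) : ¬ p ∣ (x / (p : ℚ) ^ m).den := by
  intro hd
  have hp0 := ppos (p := p)
  have h1 : padicNorm p (x / (p : ℚ) ^ m) ≤ 1 := by
    rw [padicNorm.div, div_le_one]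
    · refine h.trans (le_of_eq ?_)
      rw [norm_p_pow, padicNorm.padicNorm_p_of_prime, zpow_neg, zpow_natCast, inv_pow]
    · have : padicNorm p ((p : ℚ) ^ m) ≠ 0 := padicNorm.nonzero (by positivity)
      exact lt_of_le_of_ne (padicNorm.nonneg _) this.symm
  set y := x / (p : ℚ) ^ m with hy
  have h3 : ¬ (p : ℤ) ∣ y.num := by
    intro h4
    have h5 : p ∣ y.num.natAbs := Int.natCast_dvd.mp h4
    have h6 := Nat.dvd_gcd h5 hd
    rw [y.reduced] at h6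
    exact hp.out.one_lt.ne' (Nat.dvd_one.mp h6)
  have h7 : padicNorm p (y.num : ℚ) = 1 := norm_int h3
  have h8 : padicNorm p (y.den : ℚ) < 1 := (padicNorm.nat_lt_one_iff _).mpr hd
  have h9 : (y.num : ℚ) = y * y.den := by
    rw [Rat.mul_den_eq_num]
  rw [h9, padicNorm.mul] at h7
  have h10 : padicNorm p y * padicNorm p (y.den : ℚ) < 1 := by
    calc _ ≤ 1 * padicNorm p (y.den : ℚ) :=
          mul_le_mul_of_nonneg_right h1 (padicNorm.nonneg _)
      _ < 1 := by rw [one_mul]; exact h8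
  linarith

end Pool.Agent.Helper55.PVal
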