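import Mathlib
import Pool.Agent.Helper55.PVal

/-!
The supercongruence `S_r(p) ≡ 0 (mod p^(2r+3))`.
-/

open Finset

namespace Pool.Agent.Helper55.SuperCong

/-- `t = n/(1-n)` -/
def t (n : ℕ) : ℚ := n / (1 - n)

/-- `x_j = t/(j+1)` -/
def x (n j : ℕ) : ℚ := t n / ((j + 1 : ℕ) : ℚ)

/-- `u_k = ∏_{j=1}^k (1 + t/j)` -/
def u (n k : ℕ) : ℚ := ∏ j ∈ range k, (1 + x n j)

/-- `G_k = u_k^(2(n-1))` -/
def G (n k : ℕ) : ℚ := (u n k) ^ (2 * (n - 1))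

/-- `y_j = -x_j/(1+x_j)` -/
def y (n j : ℕ) : ℚ := -x n j / (1 + x n j)

/-- remainder of the binomial expansion -/
def R (n j : ℕ) : ℚ := (1 + y n j) ^ (2 * n) - 1 - 2 * n * y n j - n * (2 * n - 1) * (y n j) ^ 2

/-- `ρ_{j+1}` -/
def rho (n j : ℕ) : ℚ := (((j + 1 : ℕ) : ℚ) + t n) ^ 2 * R n j

lemma G_zero (n : ℕ) : G n 0 = 1 := by simp [G, u]

lemma u_succ (n k : ℕ) : u n (k + 1) = u n k * (1 + x n k) := by
  rw [u, prod_range_succ, u]

lemma G_prev {n j : ℕ} (hn : 1 ≤ n) (hx : 1 + x n j ≠ 0) :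
    G n j = G n (j + 1) * ((1 + x n j) ^ 2 * (1 + y n j) ^ (2 * n)) := by
  have h1 : (1 + x n j) * (1 + y n j) = 1 := by
    unfold y; field_simp; ring
  have h2 : (1 + x n j) ^ (2 * (n - 1)) * (1 + x n j) ^ 2 = (1 + x n j) ^ (2 * n) := by
    rw [← pow_add]; congr 1; omega
  unfold G
  rw [u_succ, mul_pow]
  calc u n j ^ (2 * (n - 1)) = u n j ^ (2 * (n - 1)) * ((1 + x n j) * (1 + y n j)) ^ (2 * n) := by
        rw [h1, one_pow, mul_one]
    _ = u n j ^ (2 * (n - 1)) * ((1 + x n j) ^ (2 * n) * (1 + y n j) ^ (2 * n)) := by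
        rw [mul_pow]
    _ = _ := by
        rw [← h2]; ring

lemma alg (n k g r : ℚ) (hk : k ≠ 0) (hm : 1 - n ≠ 0) (hD : (1 - n) * k + n ≠ 0) :
    (2 * (1 - n) * k + 1) * g =
      ((k + 1) ^ 2 * g - k ^ 2 * (g * ((1 + n / ((1 - n) * k)) ^ 2 *
        (1 + 2 * n * (-n / ((1 - n) * k + n)) +
          n * (2 * n - 1) * (-n / ((1 - n) * k + n)) ^ 2 + r)))) +
      n ^ 2 / (1 - n) * ((k + 1) * g - k * (g * ((1 + n / ((1 - n) * k)) ^ 2 *
        (1 + 2 * n * (-n / ((1 - n) * k + n)) +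
          n * (2 * n - 1) * (-n / ((1 - n) * k + n)) ^ 2 + r)))) +
      n ^ 4 * (1 - 2 * n) / (1 - n) ^ 2 * (g / k) +
      (k + n / (1 - n)) ^ 2 * r * g * (1 + n ^ 2 / ((1 - n) * k)) := by
  have h1 : 1 + n / ((1 - n) * k) = ((1 - n) * k + n) / ((1 - n) * k) := by
    field_simp
  have h2 : k + n / (1 - n) = ((1 - n) * k + n) / (1 - n) := by
    field_simp
  rw [h1, h2]
  have h3 : (((1 - n) * k + n) / ((1 - n) * k)) ^ 2 *
        (1 + 2 * n * (-n / ((1 - n) * k + n)) +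
          n * (2 * n - 1) * (-n / ((1 - n) * k + n)) ^ 2 + r) =
      (((1 - n) * k + n) ^ 2 - 2 * n ^ 2 * ((1 - n) * k + n) + n ^ 3 * (2 * n - 1) +
        ((1 - n) * k + n) ^ 2 * r) / ((1 - n) * k) ^ 2 := by
    field_simp
    ring
  rw [h3]
  field_simp
  ring

lemma key {n j : ℕ} (hn : 2 ≤ n) (hx : 1 + x n j ≠ 0) :
    (2 * (1 - n) * ((j + 1 : ℕ) : ℚ) + 1) * G n (j + 1) =
      ((((j + 1 : ℕ) : ℚ) + 1) ^ 2 * G n (j + 1) - ((j + 1 : ℕ) : ℚ) ^ 2 * G n j) +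
      n ^ 2 / (1 - n) * ((((j + 1 : ℕ) : ℚ) + 1) * G n (j + 1) - ((j + 1 : ℕ) : ℚ) * G n j) +
      n ^ 4 * (1 - 2 * n) / (1 - n) ^ 2 * (G n (j + 1) / ((j + 1 : ℕ) : ℚ)) +
      rho n j * G n (j + 1) * (1 + n ^ 2 / ((1 - n) * ((j + 1 : ℕ) : ℚ))) := by
  have hG := G_prev (by omega) hx
  have hk : ((j + 1 : ℕ) : ℚ) ≠ 0 := by positivity
  have hn1 : (1 - (n : ℚ)) ≠ 0 := by
    have : (2 : ℚ) ≤ n := by exact_mod_cast hn
    intro h; linarith
  have hR : (1 + y n j) ^ (2 * n) = 1 + 2 * n * y n j + n * (2 * n - 1) * (y n j) ^ 2 + R n j := by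
    unfold R; ring
  have hxk : x n j = n / ((1 - n) * ((j + 1 : ℕ) : ℚ)) := by
    unfold x t; rw [div_div]
  have h1 : 1 + n / ((1 - n) * ((j + 1 : ℕ) : ℚ)) =
      ((1 - n) * ((j + 1 : ℕ) : ℚ) + n) / ((1 - n) * ((j + 1 : ℕ) : ℚ)) := by
    field_simp
  have hD : (1 - n) * ((j + 1 : ℕ) : ℚ) + n ≠ 0 := by
    intro h
    rw [h, zero_div, ← hxk] at h1
    exact hx h1
  have hy : y n j = -n / ((1 - n) * ((j + 1 : ℕ) : ℚ) + n) := by
    unfold y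
    rw [hxk, h1]
    field_simp
  have hrho : rho n j = (((j + 1 : ℕ) : ℚ) + n / (1 - n)) ^ 2 * R n j := rfl
  rw [hrho, hG, hR, hxk, hy]
  exact alg n _ _ _ hk hn1 hD

/-- the full sum -/
def T (n : ℕ) : ℚ := ∑ k ∈ range n, (2 * (1 - n) * (k : ℚ) + 1) * G n k

lemma T_eq {n : ℕ} (hn : 2 ≤ n) (hx : ∀ j < n - 1, 1 + x n j ≠ 0) :
    T n = n ^ 2 / (1 - n) * (G n (n - 1) - 1) +
      n ^ 4 * (1 - 2 * n) / (1 - n) ^ 2 * ∑ j ∈ range (n - 1), G n (j + 1) / ((j + 1 : ℕ) : ℚ) +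
      ∑ j ∈ range (n - 1),
        rho n j * G n (j + 1) * (1 + n ^ 2 / ((1 - n) * ((j + 1 : ℕ) : ℚ))) := by
  obtain ⟨m, rfl⟩ : ∃ m, n = m + 1 := ⟨n - 1, by omega⟩
  simp only [Nat.add_sub_cancel] at hx ⊢
  have hn1 : (1 - ((m + 1 : ℕ) : ℚ)) ≠ 0 := by
    have : (2 : ℚ) ≤ ((m + 1 : ℕ) : ℚ) := by exact_mod_cast hn
    intro h; linarith
  unfold T
  rw [sum_range_succ']
  have h1 : ∑ k ∈ range m, (2 * (1 - ((m + 1 : ℕ) : ℚ)) * ((k + 1 : ℕ) : ℚ) + 1) * G (m + 1) (k + 1) =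
      ∑ k ∈ range m, (((((k + 1 : ℕ) : ℚ) + 1) ^ 2 * G (m + 1) (k + 1) -
        ((k + 1 : ℕ) : ℚ) ^ 2 * G (m + 1) k) +
      ((m + 1 : ℕ) : ℚ) ^ 2 / (1 - ((m + 1 : ℕ) : ℚ)) *
        ((((k + 1 : ℕ) : ℚ) + 1) * G (m + 1) (k + 1) - ((k + 1 : ℕ) : ℚ) * G (m + 1) k) +
      ((m + 1 : ℕ) : ℚ) ^ 4 * (1 - 2 * ((m + 1 : ℕ) : ℚ)) / (1 - ((m + 1 : ℕ) : ℚ)) ^ 2 *
        (G (m + 1) (k + 1) / ((k + 1 : ℕ) : ℚ)) +
      rho (m + 1) k * G (m + 1) (k + 1) *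
        (1 + ((m + 1 : ℕ) : ℚ) ^ 2 / ((1 - ((m + 1 : ℕ) : ℚ)) * ((k + 1 : ℕ) : ℚ)))) := by
    refine sum_congr rfl fun k hk => ?_
    exact key hn (hx k (by simpa using hk))
  rw [h1, sum_add_distrib, sum_add_distrib, sum_add_distrib, ← mul_sum, ← mul_sum]
  have h2 : ∑ k ∈ range m, ((((k + 1 : ℕ) : ℚ) + 1) ^ 2 * G (m + 1) (k + 1) -
        ((k + 1 : ℕ) : ℚ) ^ 2 * G (m + 1) k) = ((m + 1 : ℕ) : ℚ) ^ 2 * G (m + 1) m - 1 := by
    have := sum_range_sub (fun k => ((k + 1 : ℕ) : ℚ) ^ 2 * G (m + 1) k) m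
    rw [G_zero] at this
    push_cast at this ⊢
    rw [this]; ring
  have h3 : ∑ k ∈ range m, ((((k + 1 : ℕ) : ℚ) + 1) * G (m + 1) (k + 1) -
        ((k + 1 : ℕ) : ℚ) * G (m + 1) k) = ((m + 1 : ℕ) : ℚ) * G (m + 1) m - 1 := by
    have := sum_range_sub (fun k => ((k + 1 : ℕ) : ℚ) * G (m + 1) k) m
    rw [G_zero] at this
    push_cast at this ⊢
    rw [this]; ring
  rw [h2, h3, G_zero]
  have h4 : ((m + 1 : ℕ) : ℚ) ^ 2 * G (m + 1) m - 1 + ((m + 1 : ℕ) : ℚ) ^ 2 /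
      (1 - ((m + 1 : ℕ) : ℚ)) * (((m + 1 : ℕ) : ℚ) * G (m + 1) m - 1) + 1 =
      ((m + 1 : ℕ) : ℚ) ^ 2 / (1 - ((m + 1 : ℕ) : ℚ)) * (G (m + 1) m - 1) := by
    field_simp
    ring
  rw [← h4]
  simp only [Nat.cast_zero]
  ring


section val
open PVal

variable {p : ℕ} [hp : Fact p.Prime] {r : ℕ}

lemma n_mem (r : ℕ) : ((p ^ r : ℕ) : ℚ) ∈ I p r := by
  push_cast; exact p_pow_mem r

lemma neg_n_mem (hr : 1 ≤ r) : -((p ^ r : ℕ) : ℚ) ∈ I p 1 :=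
  AddSubgroup.neg_mem _ (mono (by omega) (n_mem r))

lemma inv_one_sub_mem (hr : 1 ≤ r) : (1 - ((p ^ r : ℕ) : ℚ))⁻¹ ∈ I p 0 := by
  rw [sub_eq_add_neg]; exact one_add_inv_mem (neg_n_mem hr)

lemma one_sub_ne (hr : 1 ≤ r) : (1 - ((p ^ r : ℕ) : ℚ)) ≠ 0 := by
  rw [sub_eq_add_neg]; exact one_add_ne (neg_n_mem hr)

lemma t_mem (hr : 1 ≤ r) : t (p ^ r) ∈ I p r := by
  unfold t
  rw [div_eq_mul_inv]
  exact mul_mem_right (n_mem r) (inv_one_sub_mem hr)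

omit hp in
lemma not_dvd_of_lt {j : ℕ} (hj : j + 1 < p ^ r) : ¬ p ^ r ∣ j + 1 :=
  Nat.not_dvd_of_pos_of_lt (by omega) hj

lemma n_div_mem {j : ℕ} (hj : j + 1 < p ^ r) : ((p ^ r : ℕ) : ℚ) / ((j + 1 : ℕ) : ℚ) ∈ I p 1 := by
  have := div_mem (p := p) (r := r) (not_dvd_of_lt hj)
  rw [sub_self, zero_add] at this
  push_cast at this ⊢
  exact this

lemma x_mem (hr : 1 ≤ r) {j : ℕ} (hj : j + 1 < p ^ r) : x (p ^ r) j ∈ I p 1 := by
  have : x (p ^ r) j = (1 - ((p ^ r : ℕ) : ℚ))⁻¹ * (((p ^ r : ℕ) : ℚ) / ((j + 1 : ℕ) : ℚ)) := by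
    unfold x t; ring
  rw [this]
  exact mul_mem_left (inv_one_sub_mem hr) (n_div_mem hj)

lemma y_mem (hr : 1 ≤ r) {j : ℕ} (hj : j + 1 < p ^ r) : y (p ^ r) j ∈ I p 1 := by
  unfold y
  rw [div_eq_mul_inv]
  exact mul_mem_right (AddSubgroup.neg_mem _ (x_mem hr hj)) (one_add_inv_mem (x_mem hr hj))

/-- `y + x ∈ I 2` -/
lemma y_add_x_mem (hr : 1 ≤ r) {j : ℕ} (hj : j + 1 < p ^ r) :
    y (p ^ r) j + x (p ^ r) j ∈ I p 2 := by
  have h := one_add_ne (x_mem hr hj)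
  have : y (p ^ r) j + x (p ^ r) j = x (p ^ r) j * x (p ^ r) j * (1 + x (p ^ r) j)⁻¹ := by
    unfold y; field_simp; ring
  rw [this]
  exact mul_mem_right (mul_mem' (x_mem hr hj) (x_mem hr hj) (by norm_num))
    (one_add_inv_mem (x_mem hr hj))

lemma u_sub_one_mem (hr : 1 ≤ r) {k : ℕ} (hk : k < p ^ r) : u (p ^ r) k - 1 ∈ I p 1 := by
  unfold u
  exact (prod_one_add (p := p) (m := 1) (by norm_num) k (fun j hj => x_mem hr (by omega))).2

lemma G_sub_one_mem (hr : 1 ≤ r) {k : ℕ} (hk : k < p ^ r) : G (p ^ r) k - 1 ∈ I p 1 := by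
  unfold G
  exact pow_one_add (by norm_num) (u_sub_one_mem hr hk) _

lemma G_mem (hr : 1 ≤ r) {k : ℕ} (hk : k < p ^ r) : G (p ^ r) k ∈ I p 0 := by
  have h := AddSubgroup.add_mem _ (mono (show (0 : ℤ) ≤ 1 by norm_num) (G_sub_one_mem hr hk))
    (one_mem (p := p))
  simpa using h

/-- binomial coefficients -/
lemma choose_mem {m : ℕ} (hm : 1 ≤ m) :
    ((2 * p ^ r).choose m : ℚ) ∈ I p (r - padicValNat p m) := by
  have hn : 1 ≤ p ^ r := Nat.one_le_pow _ _ hp.out.pos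
  obtain ⟨k, rfl⟩ : ∃ k, m = k + 1 := ⟨m - 1, by omega⟩
  obtain ⟨q, hq⟩ : ∃ q, 2 * p ^ r = q + 1 := ⟨2 * p ^ r - 1, by omega⟩
  have h1 := Nat.add_one_mul_choose_eq q k
  rw [hq]
  have h2 : ((q + 1).choose (k + 1) : ℚ) =
      2 * ((p ^ r : ℕ) : ℚ) / ((k + 1 : ℕ) : ℚ) * (q.choose k : ℚ) := by
    have h3 : ((k + 1 : ℕ) : ℚ) ≠ 0 := by positivity
    have h4 : ((q + 1 : ℕ) : ℚ) * (q.choose k : ℚ) =
        ((q + 1).choose (k + 1) : ℚ) * ((k + 1 : ℕ) : ℚ) := by exact_mod_cast h1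
    rw [← hq] at h4
    rw [← hq]
    field_simp
    rw [← h4]
    push_cast
    ring
  rw [h2]
  refine mul_mem_right ?_ (nat_mem _)
  rw [mul_div_assoc]
  have h5 : ¬ p ^ (padicValNat p (k + 1) + 1) ∣ k + 1 := by
    intro h
    have := (padicValNat_dvd_iff_le (p := p) (a := k + 1) (by omega)).mp h
    omega
  have h6 := div_mem (p := p) (r := r) h5
  have h7 : (2 : ℚ) ∈ I p 0 := by exact_mod_cast nat_mem (p := p) 2
  refine mul_mem_left h7 (mono ?_ (by push_cast at h6 ⊢; exact h6))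
  push_cast
  linarith

lemma val_bound (hp3 : 3 < p) {m : ℕ} (hm : 4 ≤ m) : padicValNat p m + 4 ≤ m := by
  rcases Nat.eq_zero_or_pos (padicValNat p m) with h | h
  · omega
  · have h1 : p ^ padicValNat p m ≤ m := Nat.le_of_dvd (by omega) pow_padicValNat_dvd
    have h2 : 5 ≤ p := by
      have : p ≠ 4 := by
        rintro rfl
        exact absurd hp.out (by norm_num)
      omega
    have h3 : 5 ^ padicValNat p m ≤ p ^ padicValNat p m := Nat.pow_le_pow_left h2 _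
    have h4 : ∀ v : ℕ, 1 ≤ v → v + 4 ≤ 5 ^ v := by
      intro v hv
      induction v, hv using Nat.le_induction with
      | base => norm_num
      | succ v hv ih => rw [pow_succ]; omega
    have := h4 _ h
    omega

/-- `Z = ∑_{i} C(2n,i+3) y^(i+1)` -/
def Z (n j : ℕ) : ℚ := ∑ i ∈ range (2 * n - 2), ((2 * n).choose (i + 3) : ℚ) * (y n j) ^ (i + 1)

lemma rho_eq {n j : ℕ} (hn : 2 ≤ n) (hx : 1 + x n j ≠ 0) : rho n j = (t n) ^ 2 * Z n j := by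
  have hR : R n j = ∑ i ∈ range (2 * n - 2), ((2 * n).choose (i + 3) : ℚ) * (y n j) ^ (i + 3) := by
    unfold R
    rw [add_comm 1 (y n j), add_pow]
    have e : 2 * n + 1 = (2 * n - 2) + 1 + 1 + 1 := by omega
    rw [e, sum_range_succ', sum_range_succ', sum_range_succ']
    have h2 : ((2 * n).choose 2 : ℚ) = n * (2 * n - 1) := by
      rw [Nat.cast_choose_two]
      push_cast
      ring
    simp only [one_pow, mul_one, Nat.choose_zero_right, pow_zero, Nat.cast_one, zero_add,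
      Nat.choose_one_right, pow_one]
    rw [show (0 + 1 + 1 : ℕ) = 2 from rfl] at *
    rw [h2]
    have h3 : ∑ k ∈ range (2 * n - 2), y n j ^ (k + 1 + 1 + 1) * ((2 * n).choose (k + 1 + 1 + 1) : ℚ) =
        ∑ i ∈ range (2 * n - 2), ((2 * n).choose (i + 3) : ℚ) * y n j ^ (i + 3) := by
      refine sum_congr rfl fun i _ => ?_
      rw [mul_comm]
    rw [h3]
    push_cast
    ring
  have hky : (((j + 1 : ℕ) : ℚ) + t n) * y n j = -t n := by
    have hk : ((j + 1 : ℕ) : ℚ) ≠ 0 := by positivity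
    have h1 : t n = ((j + 1 : ℕ) : ℚ) * x n j := by unfold x; field_simp
    rw [h1]
    unfold y
    field_simp
  unfold rho Z
  rw [hR, mul_sum, mul_sum]
  refine sum_congr rfl fun i _ => ?_
  have : (t n) ^ 2 = ((((j + 1 : ℕ) : ℚ) + t n) * y n j) ^ 2 := by rw [hky]; ring
  rw [this]
  ring

lemma Z_mem (hp3 : 3 < p) (hr : 1 ≤ r) {j : ℕ} (hj : j + 1 < p ^ r) :
    Z (p ^ r) j - ((2 * p ^ r).choose 3 : ℚ) * y (p ^ r) j ∈ I p (r + 2) ∧
    Z (p ^ r) j ∈ I p (r + 1) := by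
  have hy := y_mem hr hj
  have h3 : padicValNat p 3 = 0 := by
    apply padicValNat.eq_zero_of_not_dvd
    intro h
    have := Nat.le_of_dvd (by norm_num) h
    omega
  have h1 : Z (p ^ r) j - ((2 * p ^ r).choose 3 : ℚ) * y (p ^ r) j ∈ I p (r + 2) := by
    unfold Z
    have hn : 2 ≤ p ^ r := by
      calc 2 ≤ p := by omega
        _ = p ^ 1 := (pow_one p).symm
        _ ≤ p ^ r := Nat.pow_le_pow_right (by omega) hr
    obtain ⟨q, hq⟩ : ∃ q, 2 * p ^ r - 2 = q + 1 := ⟨2 * p ^ r - 3, by omega⟩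
    rw [hq, sum_range_succ']
    simp only [zero_add, pow_one, add_sub_cancel_right]
    refine AddSubgroup.sum_mem _ fun i _ => ?_
    have h2 := choose_mem (p := p) (r := r) (m := i + 1 + 3) (by omega)
    have h4 := val_bound hp3 (m := i + 1 + 3) (by omega)
    have h5 := pow_mem hy (i + 1 + 1)
    exact mul_mem' h2 h5 (by omega)
  refine ⟨h1, ?_⟩
  have h2 : ((2 * p ^ r).choose 3 : ℚ) * y (p ^ r) j ∈ I p (r + 1) := by
    have h4 := choose_mem (p := p) (r := r) (m := 3) (by omega)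
    rw [h3] at h4
    exact mul_mem' h4 hy (by push_cast; omega)
  have := AddSubgroup.add_mem _ (mono (show (r : ℤ) + 1 ≤ r + 2 by omega) h1) h2
  simpa using this



/-- sum over multiples of `p^(r-1)` and the others -/
lemma sum_nn_mem (hp3 : 3 < p) (hr : 1 ≤ r) :
    ∑ a ∈ Ico 1 (p ^ r), ((p ^ r : ℕ) : ℚ) / (a : ℚ) * (((p ^ r : ℕ) : ℚ) / ((p ^ r - a : ℕ) : ℚ)) ∈
      I p 3 := by
  obtain ⟨s, rfl⟩ : ∃ s, r = s + 1 := ⟨r - 1, by omega⟩
  have hppos : 0 < p := hp.out.pos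
  rw [← sum_filter_add_sum_filter_not _ (fun a => p ^ s ∣ a)]
  refine AddSubgroup.add_mem _ ?_ ?_
  · -- multiples of p^s
    have h1 : ∑ a ∈ Ico 1 (p ^ (s + 1)) with p ^ s ∣ a, ((p ^ (s + 1) : ℕ) : ℚ) / (a : ℚ) *
        (((p ^ (s + 1) : ℕ) : ℚ) / ((p ^ (s + 1) - a : ℕ) : ℚ)) =
        ∑ i ∈ Ico 1 p, (p : ℚ) / (i : ℚ) * ((p : ℚ) / ((p - i : ℕ) : ℚ)) := by
      symm
      refine sum_bij' (fun i _ => p ^ s * i) (fun a _ => a / p ^ s) ?_ ?_ ?_ ?_ ?_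
      · intro i hi
        simp only [mem_Ico, mem_filter] at hi ⊢
        have h2 : 1 ≤ p ^ s := Nat.one_le_pow _ _ hppos
        refine ⟨⟨Nat.mul_pos h2 hi.1, ?_⟩, Dvd.intro _ rfl⟩
        rw [pow_succ]
        exact Nat.mul_lt_mul_of_pos_left hi.2 h2
      · intro a ha
        simp only [mem_Ico, mem_filter] at ha ⊢
        obtain ⟨⟨h3, h4⟩, ⟨c, rfl⟩⟩ := ha
        have h2 : 0 < p ^ s := Nat.pow_pos hppos
        rw [Nat.mul_div_cancel_left _ h2]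
        rw [pow_succ] at h4
        exact ⟨Nat.pos_of_mul_pos_left h3 , Nat.lt_of_mul_lt_mul_left h4⟩
      · intro i hi
        have h2 : 0 < p ^ s := Nat.pow_pos hppos
        exact Nat.mul_div_cancel_left _ h2
      · intro a ha
        simp only [mem_Ico, mem_filter] at ha
        exact Nat.mul_div_cancel' ha.2
      · intro i hi
        simp only [mem_Ico] at hi
        have h5 : p ^ (s + 1) - p ^ s * i = p ^ s * (p - i) := by
          rw [pow_succ, Nat.mul_sub]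
        rw [h5]
        have h2 : ((p ^ s : ℕ) : ℚ) ≠ 0 := by positivity
        have h6 : ((p ^ (s + 1) : ℕ) : ℚ) = ((p ^ s : ℕ) : ℚ) * p := by push_cast; ring
        rw [h6]
        push_cast
        push_cast at h2
        rw [mul_div_mul_left _ _ h2, mul_div_mul_left _ _ h2]
    rw [h1]
    have h2 : ∑ i ∈ Ico 1 p, (p : ℚ) / (i : ℚ) * ((p : ℚ) / ((p - i : ℕ) : ℚ)) =
        p * (p * (∑ i ∈ range (p - 1), (p : ℚ) *
          ((((i + 1 : ℕ) : ℚ) ^ 2)⁻¹ * ((p - (i + 1) : ℕ) : ℚ)⁻¹) -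
          ∑ i ∈ range (p - 1), (((i + 1 : ℕ) : ℚ) ^ 2)⁻¹)) := by
      rw [sum_Ico_eq_sum_range, ← sum_sub_distrib, mul_sum, mul_sum]
      refine sum_congr rfl fun i hi => ?_
      simp only [mem_range] at hi
      have e : 1 + i = i + 1 := by omega
      rw [e]
      have h4 : ((p - (i + 1) : ℕ) : ℚ) = p - (i + 1 : ℕ) := by
        rw [Nat.cast_sub (by omega)]
      have h5 : ((p - (i + 1) : ℕ) : ℚ) ≠ 0 := by
        have : p - (i + 1) ≠ 0 := by omega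
        exact_mod_cast this
      have h6 : ((i + 1 : ℕ) : ℚ) ≠ 0 := by positivity
      have h7 : (p : ℚ) = ((p - (i + 1) : ℕ) : ℚ) + (i + 1 : ℕ) := by rw [h4]; ring
      set a : ℚ := ((p - (i + 1) : ℕ) : ℚ)
      set b : ℚ := ((i + 1 : ℕ) : ℚ)
      rw [h7]
      field_simp
      ring
    rw [h2]
    have h8 : ∑ i ∈ range (p - 1), (p : ℚ) *
          ((((i + 1 : ℕ) : ℚ) ^ 2)⁻¹ * ((p - (i + 1) : ℕ) : ℚ)⁻¹) ∈ I p 1 := by
      refine AddSubgroup.sum_mem _ fun i hi => ?_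
      simp only [mem_range] at hi
      refine mul_mem_right p_mem (mul_mem_left ?_ (nat_inv_mem ?_))
      · rw [← Nat.cast_pow]
        refine nat_inv_mem fun h => ?_
        exact Nat.not_dvd_of_pos_of_lt (by omega) (by omega) (hp.out.dvd_of_dvd_pow h)
      · exact Nat.not_dvd_of_pos_of_lt (by omega) (by omega)
    exact mul_mem' p_mem (mul_mem' p_mem (AddSubgroup.sub_mem _ h8 (harmonic2_mem hp3))
      (l := 2) (by norm_num)) (by norm_num)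
  · -- the others
    refine AddSubgroup.sum_mem _ fun a ha => ?_
    simp only [mem_Ico, mem_filter] at ha
    obtain ⟨⟨h3, h4⟩, h5⟩ := ha
    have h6 : ¬ p ^ s ∣ p ^ (s + 1) - a := by
      intro h
      apply h5
      have h7 : p ^ s ∣ p ^ (s + 1) := Dvd.intro _ (pow_succ p s).symm
      exact (Nat.dvd_sub_iff_right h4.le h7).mp h
    have h8 := div_mem (p := p) (r := s + 1) h5
    have h9 := div_mem (p := p) (r := s + 1) h6
    have e : (((s + 1 : ℕ) : ℤ) - s + 1) = 2 := by push_cast; ring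
    rw [e] at h8 h9
    have e2 : ((p ^ (s + 1) : ℕ) : ℚ) = (p : ℚ) ^ (s + 1) := by push_cast; rfl
    rw [e2]
    exact mul_mem' h8 h9 (by norm_num)

/-- `u_{n-1}^2 = ∏ (1 + ε_j)` -/
lemma u_sq {n : ℕ} (hn : 2 ≤ n) : (u n (n - 1)) ^ 2 =
    ∏ j ∈ range (n - 1), (1 + t n * (n + t n) / (((j + 1 : ℕ) : ℚ) * ((n - (j + 1) : ℕ) : ℚ))) := by
  have h1 : u n (n - 1) = ∏ j ∈ range (n - 1), (1 + t n / ((n - (j + 1) : ℕ) : ℚ)) := by
    unfold u x
    rw [← prod_range_reflect]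
    refine prod_congr rfl fun j hj => ?_
    simp only [mem_range] at hj
    congr 3
    omega
  rw [pow_two]
  nth_rewrite 2 [h1]
  unfold u x
  rw [← prod_mul_distrib]
  refine prod_congr rfl fun j hj => ?_
  simp only [mem_range] at hj
  have h4 : ((n - (j + 1) : ℕ) : ℚ) = n - (j + 1 : ℕ) := by
    rw [Nat.cast_sub (by omega)]
  have h5 : ((n - (j + 1) : ℕ) : ℚ) ≠ 0 := by
    have : n - (j + 1) ≠ 0 := by omega
    exact_mod_cast this
  have h6 : ((j + 1 : ℕ) : ℚ) ≠ 0 := by positivity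
  have h7 : (n : ℚ) = ((n - (j + 1) : ℕ) : ℚ) + (j + 1 : ℕ) := by rw [h4]; ring
  set T := t n
  set a : ℚ := ((n - (j + 1) : ℕ) : ℚ)
  set b : ℚ := ((j + 1 : ℕ) : ℚ)
  rw [h7]
  field_simp
  ring

omit hp in
lemma two_le_pow (hp3 : 3 < p) (hr : 1 ≤ r) : 2 ≤ p ^ r := by
  calc 2 ≤ p := by omega
    _ = p ^ 1 := (pow_one p).symm
    _ ≤ p ^ r := Nat.pow_le_pow_right (by omega) hr

lemma G_last_mem (hp3 : 3 < p) (hr : 1 ≤ r) : G (p ^ r) (p ^ r - 1) - 1 ∈ I p 3 := by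
  have hn := two_le_pow hp3 hr
  unfold G
  rw [pow_mul, u_sq hn]
  apply pow_one_add (by norm_num)
  set n : ℕ := p ^ r with hndef
  set e : ℚ := (1 - (n : ℚ))⁻¹ with he
  have heI : e ∈ I p 0 := inv_one_sub_mem hr
  have h1e : (1 + e) ∈ I p 0 := AddSubgroup.add_mem _ one_mem heI
  let f : ℕ → ℚ := fun j => t n * (n + t n) / (((j + 1 : ℕ) : ℚ) * ((n - (j + 1) : ℕ) : ℚ))
  have hf : ∀ j, f j = (e * (1 + e)) *
      (((n : ℚ) / ((j + 1 : ℕ) : ℚ)) * ((n : ℚ) / ((n - (j + 1) : ℕ) : ℚ))) := by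
    intro j
    have h2 : t n = n * e := by unfold t; rw [he, div_eq_mul_inv]
    simp only [f]
    rw [h2]
    ring
  have hf2 : ∀ j < n - 1, f j ∈ I p 2 := by
    intro j hj
    rw [hf j]
    refine mul_mem_left (mul_mem_left heI h1e) ?_
    refine mul_mem' (n_div_mem (r := r) (by omega)) ?_ (show (2 : ℤ) ≤ 1 + 1 by norm_num)
    obtain ⟨i, hi⟩ : ∃ i, n - (j + 1) = i + 1 := ⟨n - (j + 1) - 1, by omega⟩
    rw [hi]
    exact n_div_mem (by omega)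
  have h3 := (prod_one_add (p := p) (m := 2) (by norm_num) (n - 1) hf2).1
  have h4 : ∑ j ∈ range (n - 1), f j ∈ I p 3 := by
    have h5 := sum_nn_mem hp3 hr
    rw [sum_Ico_eq_sum_range] at h5
    have h6 : ∑ j ∈ range (n - 1), f j = (e * (1 + e)) * ∑ k ∈ range (p ^ r - 1),
        ((p ^ r : ℕ) : ℚ) / ((1 + k : ℕ) : ℚ) *
        (((p ^ r : ℕ) : ℚ) / ((p ^ r - (1 + k) : ℕ) : ℚ)) := by
      rw [mul_sum]
      refine sum_congr rfl fun j _ => ?_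
      rw [hf j, add_comm 1 j]
    rw [h6]
    exact mul_mem_left (mul_mem_left heI h1e) h5
  have h7 := AddSubgroup.add_mem _ (mono (show (3 : ℤ) ≤ 2 * 2 by norm_num) h3) h4
  convert h7 using 1
  simp only [f]
  ring

lemma cast_ne {j : ℕ} : ((j + 1 : ℕ) : ℚ) ≠ 0 := by positivity

/-- main valuation estimate -/
theorem T_mem (hp3 : 3 < p) (hr : 1 ≤ r) : T (p ^ r) ∈ I p (2 * r + 3) := by
  have hn := two_le_pow hp3 hr
  have hxne : ∀ j < p ^ r - 1, 1 + x (p ^ r) j ≠ 0 := fun j hj =>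
    one_add_ne (x_mem hr (by omega))
  rw [T_eq hn hxne]
  have heI := inv_one_sub_mem (p := p) hr
  have hnI : ((p ^ r : ℕ) : ℚ) ∈ I p r := n_mem r
  have htI : t (p ^ r) ∈ I p r := t_mem hr
  have hn2 : ((p ^ r : ℕ) : ℚ) ^ 2 / (1 - ((p ^ r : ℕ) : ℚ)) ∈ I p (2 * r) := by
    rw [div_eq_mul_inv]
    exact mul_mem_right (by exact_mod_cast pow_mem hnI 2) heI
  -- first term
  have T1 : ((p ^ r : ℕ) : ℚ) ^ 2 / (1 - ((p ^ r : ℕ) : ℚ)) * (G (p ^ r) (p ^ r - 1) - 1) ∈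
      I p (2 * r + 3) := mul_mem hn2 (G_last_mem hp3 hr)
  -- rho bounds
  have hrho : ∀ j < p ^ r - 1, rho (p ^ r) j ∈ I p (3 * r + 1) := by
    intro j hj
    rw [rho_eq hn (hxne j hj)]
    exact mul_mem' (pow_mem htI 2) (Z_mem hp3 hr (by omega)).2 (by push_cast; omega)
  have hone : ∀ j < p ^ r - 1,
      (1 : ℚ) + ((p ^ r : ℕ) : ℚ) ^ 2 / ((1 - ((p ^ r : ℕ) : ℚ)) * ((j + 1 : ℕ) : ℚ)) =
      1 + ((p ^ r : ℕ) : ℚ) * x (p ^ r) j := by
    intro j hj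
    unfold x t
    have := one_sub_ne (p := p) hr
    have := cast_ne (j := j)
    field_simp
  have hnx : ∀ j < p ^ r - 1, ((p ^ r : ℕ) : ℚ) * x (p ^ r) j ∈ I p (r + 1) := fun j hj =>
    mul_mem hnI (x_mem hr (by omega))
  rcases Nat.lt_or_ge 1 r with hr2 | hr1
  · -- r ≥ 2
    have T2 : ((p ^ r : ℕ) : ℚ) ^ 4 * (1 - 2 * ((p ^ r : ℕ) : ℚ)) / (1 - ((p ^ r : ℕ) : ℚ)) ^ 2 *
        ∑ j ∈ range (p ^ r - 1), G (p ^ r) (j + 1) / ((j + 1 : ℕ) : ℚ) ∈ I p (2 * r + 3) := by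
      have h1 : ((p ^ r : ℕ) : ℚ) ^ 4 * (1 - 2 * ((p ^ r : ℕ) : ℚ)) / (1 - ((p ^ r : ℕ) : ℚ)) ^ 2 *
        ∑ j ∈ range (p ^ r - 1), G (p ^ r) (j + 1) / ((j + 1 : ℕ) : ℚ) =
        (((p ^ r : ℕ) : ℚ) ^ 3 * ((1 - 2 * ((p ^ r : ℕ) : ℚ)) * ((1 - ((p ^ r : ℕ) : ℚ))⁻¹) ^ 2)) *
        ∑ j ∈ range (p ^ r - 1), G (p ^ r) (j + 1) * (((p ^ r : ℕ) : ℚ) / ((j + 1 : ℕ) : ℚ)) := by
        rw [mul_sum, mul_sum]
        refine sum_congr rfl fun j _ => ?_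
        have := one_sub_ne (p := p) hr
        have := cast_ne (j := j)
        field_simp
      rw [h1]
      have h2 : (1 - 2 * ((p ^ r : ℕ) : ℚ)) ∈ I p 0 := by
        have := int_mem (p := p) (1 - 2 * ((p ^ r : ℕ) : ℤ))
        push_cast at this ⊢
        exact this
      have h3 : ∑ j ∈ range (p ^ r - 1), G (p ^ r) (j + 1) *
          (((p ^ r : ℕ) : ℚ) / ((j + 1 : ℕ) : ℚ)) ∈ I p 1 := by
        refine AddSubgroup.sum_mem _ fun j hj => ?_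
        simp only [mem_range] at hj
        exact mul_mem_left (G_mem hr (by omega)) (n_div_mem (by omega))
      refine mul_mem' (mul_mem_right (pow_mem hnI 3) (mul_mem_left h2 (pow_mem_zero heI 2))) h3 ?_
      push_cast
      omega
    have T3 : ∑ j ∈ range (p ^ r - 1), rho (p ^ r) j * G (p ^ r) (j + 1) *
        (1 + ((p ^ r : ℕ) : ℚ) ^ 2 / ((1 - ((p ^ r : ℕ) : ℚ)) * ((j + 1 : ℕ) : ℚ))) ∈
        I p (2 * r + 3) := by
      refine AddSubgroup.sum_mem _ fun j hj => ?_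
      simp only [mem_range] at hj
      rw [hone j hj]
      refine mul_mem_right (mul_mem_right (mono (by omega) (hrho j hj)) (G_mem hr (by omega))) ?_
      exact AddSubgroup.add_mem _ one_mem (mono (by omega) (hnx j hj))
    exact AddSubgroup.add_mem _ (AddSubgroup.add_mem _ T1 T2) T3
  · -- r = 1
    have hr' : r = 1 := by omega
    subst hr'
    have hinv : ∀ j < p ^ 1 - 1, (((j + 1 : ℕ) : ℚ))⁻¹ ∈ I p 0 := by
      intro j hj
      rw [pow_one] at hj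
      exact nat_inv_mem (Nat.not_dvd_of_pos_of_lt (by omega) (by omega))
    have hH : ∑ j ∈ range (p ^ 1 - 1), ((j + 1 : ℕ) : ℚ)⁻¹ ∈ I p 1 := by
      rw [pow_one]; exact harmonic_mem (by omega)
    have T2 : ((p ^ 1 : ℕ) : ℚ) ^ 4 * (1 - 2 * ((p ^ 1 : ℕ) : ℚ)) / (1 - ((p ^ 1 : ℕ) : ℚ)) ^ 2 *
        ∑ j ∈ range (p ^ 1 - 1), G (p ^ 1) (j + 1) / ((j + 1 : ℕ) : ℚ) ∈ I p (2 * (1 : ℕ) + 3) := by
      have h2 : (1 - 2 * ((p ^ 1 : ℕ) : ℚ)) ∈ I p 0 := by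
        have := int_mem (p := p) (1 - 2 * ((p ^ 1 : ℕ) : ℤ))
        push_cast at this ⊢
        exact this
      have h3 : ∑ j ∈ range (p ^ 1 - 1), G (p ^ 1) (j + 1) / ((j + 1 : ℕ) : ℚ) ∈ I p 1 := by
        have h4 : ∑ j ∈ range (p ^ 1 - 1), G (p ^ 1) (j + 1) / ((j + 1 : ℕ) : ℚ) =
            ∑ j ∈ range (p ^ 1 - 1), (G (p ^ 1) (j + 1) - 1) * ((j + 1 : ℕ) : ℚ)⁻¹ +
            ∑ j ∈ range (p ^ 1 - 1), ((j + 1 : ℕ) : ℚ)⁻¹ := by
          rw [← sum_add_distrib]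
          refine sum_congr rfl fun j _ => ?_
          ring
        rw [h4]
        refine AddSubgroup.add_mem _ (AddSubgroup.sum_mem _ fun j hj => ?_) hH
        simp only [mem_range] at hj
        exact mul_mem_right (G_sub_one_mem hr (by omega)) (hinv j hj)
      rw [div_eq_mul_inv, ← inv_pow]
      refine mul_mem' (mul_mem_right (mul_mem_right (pow_mem hnI 4) h2) (pow_mem_zero heI 2)) h3 ?_
      norm_num
    have T3 : ∑ j ∈ range (p ^ 1 - 1), rho (p ^ 1) j * G (p ^ 1) (j + 1) *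
        (1 + ((p ^ 1 : ℕ) : ℚ) ^ 2 / ((1 - ((p ^ 1 : ℕ) : ℚ)) * ((j + 1 : ℕ) : ℚ))) ∈
        I p (2 * (1 : ℕ) + 3) := by
      -- reduce to the main part
      set c : ℚ := ((2 * p ^ 1).choose 3 : ℚ) with hc
      have hcI : c ∈ I p 1 := by
        have h4 := choose_mem (p := p) (r := 1) (m := 3) (by omega)
        have h3 : padicValNat p 3 = 0 := by
          apply padicValNat.eq_zero_of_not_dvd
          intro h
          have := Nat.le_of_dvd (by norm_num) h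
          omega
        rw [h3, show ((1 : ℕ) : ℤ) - ((0 : ℕ) : ℤ) = 1 by norm_num] at h4
        exact h4
      have ht1 : t (p ^ 1) ∈ I p 1 := by simpa using htI
      have hdecomp : ∑ j ∈ range (p ^ 1 - 1), rho (p ^ 1) j * G (p ^ 1) (j + 1) *
        (1 + ((p ^ 1 : ℕ) : ℚ) ^ 2 / ((1 - ((p ^ 1 : ℕ) : ℚ)) * ((j + 1 : ℕ) : ℚ))) =
        ∑ j ∈ range (p ^ 1 - 1), (rho (p ^ 1) j * G (p ^ 1) (j + 1) *
          (((p ^ 1 : ℕ) : ℚ) * x (p ^ 1) j) +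
          t (p ^ 1) ^ 2 * (Z (p ^ 1) j - c * y (p ^ 1) j) * G (p ^ 1) (j + 1) +
          t (p ^ 1) ^ 2 * c * (y (p ^ 1) j * (G (p ^ 1) (j + 1) - 1)) +
          t (p ^ 1) ^ 2 * c * (y (p ^ 1) j + x (p ^ 1) j)) -
        t (p ^ 1) ^ 2 * c * t (p ^ 1) * ∑ j ∈ range (p ^ 1 - 1), ((j + 1 : ℕ) : ℚ)⁻¹ := by
        rw [mul_sum, ← sum_sub_distrib]
        refine sum_congr rfl fun j hj => ?_
        simp only [mem_range] at hj
        rw [hone j hj, rho_eq hn (hxne j hj)]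
        have : t (p ^ 1) * ((j + 1 : ℕ) : ℚ)⁻¹ = x (p ^ 1) j := by
          unfold x; rw [div_eq_mul_inv]
        rw [mul_assoc _ (t (p ^ 1)) _, this]
        ring
      rw [hdecomp]
      refine AddSubgroup.sub_mem _ (AddSubgroup.sum_mem _ fun j hj => ?_) ?_
      · simp only [mem_range] at hj
        have hj' : j + 1 < p ^ 1 := by omega
        have hG0 := G_mem hr hj'
        have hG1 := G_sub_one_mem hr hj'
        have hy1 := y_mem hr hj'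
        have hyx := y_add_x_mem hr hj'
        have hZ := (Z_mem hp3 hr hj').1
        refine AddSubgroup.add_mem _ (AddSubgroup.add_mem _ (AddSubgroup.add_mem _ ?_ ?_) ?_) ?_
        · exact mul_mem' (mul_mem_right (hrho j hj) hG0) (hnx j hj) (by norm_num)
        · exact mul_mem_right (mul_mem' (pow_mem ht1 2) hZ (by norm_num)) hG0
        · exact mul_mem' (mul_mem (pow_mem ht1 2) hcI) (mul_mem hy1 hG1) (by norm_num)
        · exact mul_mem' (mul_mem (pow_mem ht1 2) hcI) hyx (by norm_num)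
      · exact mul_mem' (mul_mem (mul_mem (pow_mem ht1 2) hcI) ht1) hH (by norm_num)
    exact AddSubgroup.add_mem _ (AddSubgroup.add_mem _ T1 T2) T3

end val

/-- the quotient `(-1/N)_k / k!` with `N = n-1` -/
lemma poch_eq {n : ℕ} (hn : 2 ≤ n) (k : ℕ) :
    (ascPochhammer ℚ k).eval (-1 / ((n : ℚ) - 1)) / (k.factorial : ℚ) = u n k := by
  have hn1 : ((n : ℚ) - 1) ≠ 0 := by
    have : (2 : ℚ) ≤ n := by exact_mod_cast hn
    intro h; linarith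
  have hn2 : (1 - (n : ℚ)) ≠ 0 := by
    intro h; apply hn1; linarith
  induction k with
  | zero => simp [u]
  | succ k ih =>
    rw [ascPochhammer_succ_eval, u_succ, ← ih, Nat.factorial_succ]
    have h1 : ((k + 1 : ℕ) : ℚ) ≠ 0 := by positivity
    have h2 : (k.factorial : ℚ) ≠ 0 := by positivity
    have h3 : (-1 / ((n : ℚ) - 1) + k) = ((k + 1 : ℕ) : ℚ) * (1 + x n k) := by
      unfold x t
      have : (-1 / ((n : ℚ) - 1)) = 1 / (1 - n) := by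
        rw [← neg_sub, div_neg, neg_div, neg_neg]
      rw [this]
      field_simp
      push_cast
      ring
    rw [h3]
    push_cast
    push_cast at h1
    field_simp

theorem main (p : ℕ) (hp : p.Prime) (hp3 : 3 < p) (r : ℕ) (hr : 1 ≤ r) :
    ¬ p ∣ ((∑ k ∈ range (p ^ r), (2 * ((p : ℚ) ^ r - 1) * k - 1) *
      ((ascPochhammer ℚ k).eval (-1 / ((p : ℚ) ^ r - 1)) / (k.factorial : ℚ)) ^
        (2 * (p ^ r - 1))) / (p : ℚ) ^ (2 * r + 3)).den := by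
  have : Fact p.Prime := ⟨hp⟩
  have hn := two_le_pow (p := p) hp3 hr
  have h1 : ∑ k ∈ range (p ^ r), (2 * ((p : ℚ) ^ r - 1) * k - 1) *
      ((ascPochhammer ℚ k).eval (-1 / ((p : ℚ) ^ r - 1)) / (k.factorial : ℚ)) ^
        (2 * (p ^ r - 1)) = - T (p ^ r) := by
    unfold T
    rw [← sum_neg_distrib]
    refine sum_congr rfl fun k _ => ?_
    have h2 := poch_eq hn k
    push_cast at h2
    rw [h2]
    unfold G
    push_cast
    ring
  rw [h1]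
  apply PVal.not_dvd_den
  have := T_mem (p := p) hp3 hr
  push_cast
  exact AddSubgroup.neg_mem _ this

end Pool.Agent.Helper55.SuperCong
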